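import Mathlib

/-!
# Elements of number fields with prescribed signs
-/

set_option autoImplicit false

namespace Pool.Agent.K4H74.ST

open NumberField

/-- elements of a number field with prescribed signs at the real embeddings -/
theorem exists_sign (F : Type) [Field F] [NumberField F] (S : Set (F →+* ℂ)) :
    ∃ α : F, ∀ φ : F →+* ℂ, ComplexEmbedding.IsReal φ →
      (φ ∈ S → (φ α).re < 0) ∧ (φ ∉ S → 0 < (φ α).re) := by
  classical
  let a : (v : InfinitePlace F) → WithAbs v.1 := fun v =>
    WithAbs.toAbs v.1 (if v.embedding ∈ S then (-1 : F) else 1)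
  obtain ⟨α, hα⟩ := (InfinitePlace.denseRange_algebraMap_pi F).exists_dist_lt a
    (ε := 1) one_pos
  refine ⟨α, fun φ hφ => ?_⟩
  let v := InfinitePlace.mk φ
  have hv : v.embedding = φ := InfinitePlace.embedding_mk_eq_of_isReal hφ
  have h1 : dist (a v) (algebraMap F ((v : InfinitePlace F) → WithAbs v.1) α v) < 1 :=
    lt_of_le_of_lt (dist_le_pi_dist _ _ v) hα
  have h2 : dist (a v) (algebraMap F ((v : InfinitePlace F) → WithAbs v.1) α v)
      = ‖φ ((if v.embedding ∈ S then (-1 : F) else 1) - α)‖ := by
    rw [dist_eq_norm]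
    have h3 : a v - algebraMap F ((v : InfinitePlace F) → WithAbs v.1) α v
        = WithAbs.toAbs v.1 ((if v.embedding ∈ S then (-1 : F) else 1) - α) := rfl
    rw [h3]
    change v.1 ((if v.embedding ∈ S then (-1 : F) else 1) - α) = _
    exact InfinitePlace.apply φ _
  rw [h2, hv] at h1
  have h3 := (Complex.abs_re_le_norm _).trans_lt h1
  constructor
  · intro h
    rw [if_pos h, map_sub, map_neg, map_one, Complex.sub_re, Complex.neg_re, Complex.one_re,
      abs_lt] at h3
    linarith [h3.1, h3.2]
  · intro h
    rw [if_neg h, map_sub, map_one, Complex.sub_re, Complex.one_re, abs_lt] at h3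
    linarith [h3.1, h3.2]

end Pool.Agent.K4H74.ST
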