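import Mathlib
import Pool.Agent.K4H74.ST.Sgn

/-!
# Complex conjugations in Galois groups of number fields, extensions by square roots
-/

set_option autoImplicit false
set_option linter.unusedSectionVars false

namespace Pool.Agent.K4H74.ST

open NumberField NumberField.ComplexEmbedding

/-- a finite extension, Galois over the base, which contains square roots of given elements -/
theorem exists_ext (K L : Type) [Field K] [NumberField K] [Field L] [NumberField L] [Algebra K L]
    [IsGalois K L] (A : Finset L) :
    ∃ (N : Type) (_ : Field N) (_ : NumberField N) (_ : Algebra K N) (_ : Algebra L N)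
      (_ : IsScalarTower K L N) (_ : IsGalois K N),
      ∀ a ∈ A, ∃ w : N, w * w = algebraMap L N a := by
  classical
  let Ω := AlgebraicClosure L
  have h1 : ∀ a : L, ∃ w : Ω, w * w = algebraMap L Ω a := by
    intro a
    obtain ⟨w, hw⟩ := IsAlgClosed.exists_eq_mul_self (algebraMap L Ω a)
    exact ⟨w, hw.symm⟩
  choose w hw using h1
  let S : Set Ω := w '' (A : Set L)
  have hS : S.Finite := A.finite_toSet.image _
  let F : IntermediateField L Ω := IntermediateField.adjoin L S
  have hF : FiniteDimensional L F := by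
    have : Finite S := hS
    exact IntermediateField.finiteDimensional_adjoin (fun x _ =>
      (Algebra.IsAlgebraic.isAlgebraic (R := L) x).isIntegral)
  have : FiniteDimensional K L := Module.Finite.of_restrictScalars_finite ℚ K L
  have : FiniteDimensional K F := FiniteDimensional.trans K L F
  have : Algebra.IsAlgebraic K Ω := Algebra.IsAlgebraic.trans K L Ω
  have : IsAlgClosure K Ω := ⟨inferInstance, inferInstance⟩
  have : Normal K Ω := IsAlgClosure.normal K Ω
  let N := IntermediateField.normalClosure K F Ω
  have hN1 : Normal K N := normalClosure.normal K F Ω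
  have hN2 : FiniteDimensional K N := normalClosure.is_finiteDimensional K F Ω
  have hN3 : NumberField N := by
    have : CharZero N := charZero_of_injective_algebraMap (algebraMap K N).injective
    exact { to_charZero := this
            to_finiteDimensional := by
              have := FiniteDimensional.trans ℚ K N
              exact this }
  have hKFO : IsScalarTower K F Ω := IsScalarTower.of_algebraMap_eq fun x => by
    rw [IsScalarTower.algebraMap_apply K L Ω]
    rfl
  let _ : Algebra F N := inferInstanceAs (Algebra F (IntermediateField.normalClosure K F Ω))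
  have hKFN : IsScalarTower K F N :=
    inferInstanceAs (IsScalarTower K F (IntermediateField.normalClosure K F Ω))
  let i1 : L →+* N := (algebraMap F N).comp (algebraMap L F)
  let _ : Algebra L N := i1.toAlgebra
  have hN4 : IsScalarTower K L N := by
    refine IsScalarTower.of_algebraMap_eq fun x => ?_
    change algebraMap K N x = algebraMap F N (algebraMap L F (algebraMap K L x))
    rw [IsScalarTower.algebraMap_apply K F N]
    rw [IsScalarTower.algebraMap_apply K L F]
  have hN5 : IsGalois K N := ⟨⟩
  refine ⟨N, inferInstance, hN3, inferInstance, inferInstance, hN4, hN5, fun a ha => ?_⟩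
  have hwF : w a ∈ F := IntermediateField.subset_adjoin L S ⟨a, ha, rfl⟩
  refine ⟨algebraMap F N ⟨w a, hwF⟩, ?_⟩
  change _ = algebraMap F N (algebraMap L F a)
  rw [← map_mul]
  congr 1
  apply Subtype.ext
  exact hw a

/-- the complex conjugations in a Galois group -/
def CC (K N : Type) [Field K] [Field N] [Algebra K N] : Set (N ≃ₐ[K] N) :=
  {c | ∃ φ : N →+* ℂ, IsConj φ c}

section conj

variable {K N : Type} [Field K] [NumberField K] [Field N] [NumberField N] [Algebra K N]

lemma CC_conj {c : N ≃ₐ[K] N} (hc : c ∈ CC K N) (g : N ≃ₐ[K] N) : g⁻¹ * c * g ∈ CC K N := by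
  obtain ⟨φ, hφ⟩ := hc
  exact ⟨_, hφ.comp g⟩

lemma exists_conj [IsGalois K N] {φ : N →+* ℂ} (h : IsReal (φ.comp (algebraMap K N))) :
    ∃ c : N ≃ₐ[K] N, IsConj φ c := by
  obtain ⟨σ, hσ⟩ := ComplexEmbedding.exists_comp_symm_eq_of_comp_eq (k := K) φ (conjugate φ) (by
    ext x
    have := RingHom.congr_fun h x
    exact this.symm)
  exact ⟨σ.symm, hσ.symm⟩

lemma isConj_sq {φ : N →+* ℂ} {c : N ≃ₐ[K] N} (h : IsConj φ c) : c * c = 1 := by
  ext x
  exact isConj_apply_apply h x

lemma isConj_fix {φ : N →+* ℂ} {c : N ≃ₐ[K] N} (h : IsConj φ c) {x : N} :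
    c x = x ↔ (φ x).im = 0 := by
  rw [← φ.injective.eq_iff, h.eq, ← Complex.conj_eq_iff_im]
  rfl

lemma sqrt_pos {φ : N →+* ℂ} {c : N ≃ₐ[K] N} (h : IsConj φ c) {w : N}
    (h1 : (φ (w * w)).im = 0) (h2 : 0 < (φ (w * w)).re) : c w = w := by
  rw [isConj_fix h]
  rw [map_mul, Complex.mul_im] at h1
  rw [map_mul, Complex.mul_re] at h2
  by_contra h3
  have h4 : (φ w).re * (φ w).im = 0 := by linarith
  rcases mul_eq_zero.mp h4 with h5 | h5
  · rw [h5] at h2
    nlinarith [mul_self_nonneg (φ w).im]
  · exact h3 h5

lemma sqrt_neg {φ : N →+* ℂ} {c : N ≃ₐ[K] N} (h : IsConj φ c) {w : N}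
    (h1 : (φ (w * w)).im = 0) (h2 : (φ (w * w)).re < 0) : c w = - w := by
  rw [← φ.injective.eq_iff, h.eq, map_neg]
  rw [map_mul, Complex.mul_im] at h1
  rw [map_mul, Complex.mul_re] at h2
  have h4 : (φ w).re * (φ w).im = 0 := by linarith
  have h5 : (φ w).re = 0 := by
    rcases mul_eq_zero.mp h4 with h5 | h5
    · exact h5
    · rw [h5] at h2
      nlinarith [mul_self_nonneg (φ w).re]
  apply Complex.ext
  · change (φ w).re = - (φ w).re
    rw [h5, neg_zero]
  · rfl

variable {L : Type} [Field L] [NumberField L] [Algebra K L] [IsGalois K L] [Algebra L N]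
  [IsScalarTower K L N]

lemma res_apply (g : N ≃ₐ[K] N) (x : L) :
    algebraMap L N (AlgEquiv.restrictNormalHom L g x) = g (algebraMap L N x) :=
  AlgEquiv.restrictNormal_commutes g L x

lemma isConj_res {φ : N →+* ℂ} {c : N ≃ₐ[K] N} (h : IsConj φ c) :
    IsConj (φ.comp (algebraMap L N)) (AlgEquiv.restrictNormalHom L c) := by
  ext x
  change star (φ (algebraMap L N x)) = φ (algebraMap L N (AlgEquiv.restrictNormalHom L c x))
  rw [res_apply, h.eq]

lemma CC_res {c : N ≃ₐ[K] N} (hc : c ∈ CC K N) : AlgEquiv.restrictNormalHom L c ∈ CC K L := by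
  obtain ⟨φ, hφ⟩ := hc
  exact ⟨_, isConj_res hφ⟩

end conj

end Pool.Agent.K4H74.ST
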