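import Mathlib
import Pool.Agent.R389.Brauer
import Pool.Agent.R389.Compl

/-!
# Characters induced from subgroups which avoid a set of elements

`G` is a finite group and `X` a set of elements (in the applications the complex conjugations in a
Galois group). `JJ X` is the group generated by the characters which are induced from linear
characters of subgroups disjoint from `X`.
-/

set_option autoImplicit false
set_option linter.unusedSectionVars false

namespace Pool.Agent.K4H74.ST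

open Pool.Agent.R389

/-- a linear character as a function -/
noncomputable def lc {G : Type} [Group G] (ψ : G →* ℂˣ) : G → ℂ := fun g => ((ψ g : ℂˣ) : ℂ)

/-- the group generated by the characters which are induced from linear characters of subgroups
disjoint from `X` -/
def JJ {G : Type} [Group G] (X : Set G) : AddSubgroup (G → ℂ) :=
  AddSubgroup.closure {f | ∃ (H : Subgroup G) (ψ : H →* ℂˣ), (∀ x ∈ X, x ∉ H) ∧
    f = ind H (fun h => ((ψ h : ℂˣ) : ℂ))}

section basic

variable {G : Type} [Group G] [Finite G]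

/-- inducing from a subgroup -/
lemma ind_JJ {X : Set G} (H : Subgroup G) {f : H → ℂ} (hf : f ∈ JJ {x : H | (x : G) ∈ X}) :
    ind H f ∈ JJ X := by
  have h1 : JJ {x : H | (x : G) ∈ X} ≤ (JJ X).comap (indHom H) := by
    rw [JJ, AddSubgroup.closure_le]
    rintro f ⟨V, ψ, hV, rfl⟩
    rw [SetLike.mem_coe, AddSubgroup.mem_comap, indHom_apply, ind_ind]
    refine AddSubgroup.subset_closure ⟨V.map H.subtype, ψ.comp
      (V.equivMapOfInjective H.subtype H.subtype_injective).symm.toMonoidHom, ?_, rfl⟩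
    rintro x hx ⟨z, hz, rfl⟩
    exact hV z hx hz
  exact h1 hf

/-- twisting by a linear character -/
lemma tw_JJ {X : Set G} (lam : G →* ℂˣ) {f : G → ℂ} (hf : f ∈ JJ X) :
    (fun u => f u * ((lam u : ℂˣ) : ℂ)) ∈ JJ X := by
  have h1 : JJ X ≤ (JJ X).comap (twHom lam) := by
    rw [JJ, AddSubgroup.closure_le]
    rintro f ⟨V, ψ, hV, rfl⟩
    rw [SetLike.mem_coe, AddSubgroup.mem_comap]
    refine AddSubgroup.subset_closure ⟨V, ψ * lam.comp V.subtype, hV, ?_⟩
    funext g
    change ind V (fun h => ((ψ h : ℂˣ) : ℂ)) g * ((lam g : ℂˣ) : ℂ) = _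
    rw [← ind_mul V (fun h => ((ψ h : ℂˣ) : ℂ)) (F := fun g => ((lam g : ℂˣ) : ℂ))
      (lin_conj lam) g]
    congr 1
  exact h1 hf

/-- a subgroup disjoint from `X` -/
lemma free_JJ {X : Set G} {H : Subgroup G} (hX : ∀ x ∈ X, x ∉ H) (ψ : H →* ℂˣ) :
    ind H (fun h => ((ψ h : ℂˣ) : ℂ)) ∈ JJ X :=
  AddSubgroup.subset_closure ⟨H, ψ, hX, rfl⟩

/-- inducing from the whole group -/
lemma ind_top (f : G → ℂ) (hf : ∀ g x : G, f (x * g * x⁻¹) = f g) :
    ind (⊤ : Subgroup G) (fun h => f h) = f := by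
  classical
  have : Fintype G := Fintype.ofFinite G
  funext g
  rw [ind_eq]
  have h1 : ∀ x : G, ext (⊤ : Subgroup G) (fun h => f h) (x⁻¹ * g * x) = f g := by
    intro x
    rw [ext_mem _ _ (Subgroup.mem_top _)]
    have := hf g x⁻¹
    rwa [inv_inv] at this
  rw [Finset.sum_congr rfl (fun x _ => h1 x), Finset.sum_const, Finset.card_univ, nsmul_eq_mul,
    ← mul_assoc, Subgroup.card_top, Nat.card_eq_fintype_card, inv_mul_cancel₀, one_mul]
  exact_mod_cast Fintype.card_ne_zero

/-- sign characters -/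
def Sg (s : G →* ℂˣ) : Prop := ∀ g, s g = 1 ∨ s g = -1

lemma neg_one_ne : (-1 : ℂˣ) ≠ 1 := by
  intro h
  have := congrArg (fun u : ℂˣ => (u : ℂ)) h
  simp only [Units.val_neg, Units.val_one] at this
  norm_num at this

lemma card_ker {s : G →* ℂˣ} (hs : Sg s) {t : G} (ht : s t = -1) :
    Nat.card G = 2 * Nat.card s.ker := by
  have h1 := s.ker.index_mul_card
  rw [← h1, Subgroup.index_ker]
  congr 1
  have h2 : (s.range : Set ℂˣ) = {1, -1} := by
    ext u
    constructor
    · rintro ⟨g, rfl⟩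
      exact hs g
    · rintro (rfl | rfl)
      · exact ⟨1, map_one s⟩
      · exact ⟨t, ht⟩
  have h3 : Nat.card s.range = Set.ncard (s.range : Set ℂˣ) := rfl
  rw [h3, h2, Set.ncard_pair neg_one_ne.symm]

/-- induction from a subgroup of index two -/
lemma ind_two {s : G →* ℂˣ} (hs : Sg s) {t : G} (ht : s t = -1) (f : G → ℂ)
    (hf : ∀ g x : G, s g = 1 → s x = 1 → f (x⁻¹ * g * x) = f g) (g : G) :
    ind s.ker (fun h => f h) g = if s g = 1 then f g + f (t⁻¹ * g * t) else 0 := by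
  classical
  have : Fintype G := Fintype.ofFinite G
  have hsc : ∀ x : G, s (x⁻¹ * g * x) = s g := by
    intro x
    rw [map_mul, map_mul, map_inv, mul_comm (s x)⁻¹, mul_assoc, inv_mul_cancel, mul_one]
  rw [ind_eq]
  by_cases hg : s g = 1
  swap
  · rw [if_neg hg, Finset.sum_eq_zero, mul_zero]
    intro x _
    apply ext_not
    rw [MonoidHom.mem_ker, hsc]
    exact hg
  rw [if_pos hg]
  have h1 : ∀ x : G, ext s.ker (fun h => f h) (x⁻¹ * g * x)
      = if s x = 1 then f g else f (t⁻¹ * g * t) := by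
    intro x
    have hx : x⁻¹ * g * x ∈ s.ker := by rw [MonoidHom.mem_ker, hsc, hg]
    rw [ext_mem _ _ hx]
    by_cases h : s x = 1
    · rw [if_pos h]
      exact hf g x hg h
    · rw [if_neg h]
      have h2 : s x = -1 := (hs x).resolve_left h
      have h3 : s (t⁻¹ * x) = 1 := by rw [map_mul, map_inv, ht, h2]; simp
      have h4 : x⁻¹ * g * x = (t⁻¹ * x)⁻¹ * (t⁻¹ * g * t) * (t⁻¹ * x) := by group
      change f (x⁻¹ * g * x) = _
      rw [h4]
      refine hf _ _ ?_ h3
      rw [hsc, hg]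
  rw [Finset.sum_congr rfl (fun x _ => h1 x), Finset.sum_ite, Finset.sum_const, Finset.sum_const]
  have h5 : (Finset.univ.filter (fun x : G => s x = 1)).card = Nat.card s.ker := by
    rw [← Fintype.card_subtype, ← Nat.card_eq_fintype_card]
    rfl
  have h6 : (Finset.univ.filter (fun x : G => ¬ s x = 1)).card = Nat.card s.ker := by
    have h7 := Finset.card_filter_add_card_filter_not (s := (Finset.univ : Finset G))
      (fun x : G => s x = 1)
    rw [h5, Finset.card_univ, ← Nat.card_eq_fintype_card, card_ker hs ht] at h7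
    omega
  rw [h5, h6]
  have h8 : (Nat.card s.ker : ℂ) ≠ 0 := by exact_mod_cast Nat.card_pos.ne'
  simp only [nsmul_eq_mul]
  field_simp

lemma ind_two' {s : G →* ℂˣ} (hs : Sg s) {t : G} (ht : s t = -1) (ψ : G →* ℂˣ) :
    ind s.ker (fun h => lc ψ h) = lc ψ + lc (ψ * s) := by
  funext g
  rw [ind_two hs ht]
  · have h1 : lc ψ (t⁻¹ * g * t) = lc ψ g := by
      unfold lc
      rw [map_mul, map_mul, map_inv, mul_comm (ψ t)⁻¹, mul_assoc, inv_mul_cancel, mul_one]
    rw [Pi.add_apply]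
    by_cases h : s g = 1
    · rw [if_pos h, h1]
      unfold lc
      rw [MonoidHom.mul_apply, h, mul_one]
    · rw [if_neg h]
      unfold lc
      rw [MonoidHom.mul_apply, (hs g).resolve_left h]
      simp
  · intro g x _ _
    unfold lc
    rw [map_mul, map_mul, map_inv, mul_comm (ψ x)⁻¹, mul_assoc, inv_mul_cancel, mul_one]

/-- a sign character which is odd on `X` -/
lemma odd_JJ {X : Set G} {s : G →* ℂˣ} (hs : Sg s) (hX : ∀ x ∈ X, s x = -1) (ψ : G →* ℂˣ) :
    lc ψ + lc (ψ * s) ∈ JJ X := by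
  by_cases h : ∃ t, s t = -1
  · obtain ⟨t, ht⟩ := h
    rw [← ind_two' hs ht]
    refine AddSubgroup.subset_closure ⟨s.ker, ψ.comp s.ker.subtype, ?_, rfl⟩
    intro x hx hx'
    rw [MonoidHom.mem_ker, hX x hx] at hx'
    exact neg_one_ne hx'
  · push Not at h
    have hX' : ∀ x ∈ X, x ∉ (⊤ : Subgroup G) := fun x hx => absurd (hX x hx) (h x)
    have h1 : ∀ φ : G →* ℂˣ, lc φ ∈ JJ X := by
      intro φ
      refine AddSubgroup.subset_closure ⟨⊤, φ.comp (⊤ : Subgroup G).subtype, hX', ?_⟩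
      exact (ind_top (lc φ) (fun g x => lin_conj φ g x)).symm
    exact add_mem (h1 _) (h1 _)

lemma Sg.mul {s s' : G →* ℂˣ} (hs : Sg s) (hs' : Sg s') : Sg (s * s') := by
  intro g
  rw [MonoidHom.mul_apply]
  rcases hs g with h | h <;> rcases hs' g with h' | h' <;> rw [h, h'] <;> simp

lemma Sg.sq {s : G →* ℂˣ} (hs : Sg s) : s * s = 1 := by
  ext g
  rw [MonoidHom.mul_apply]
  rcases hs g with h | h <;> rw [h] <;> simp

/-- sign characters which are even on `X` -/
lemma even_JJ {X : Set G} {s₀ : G →* ℂˣ} (hs₀ : Sg s₀) (hX₀ : ∀ x ∈ X, s₀ x = -1)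
    {β : G →* ℂˣ} (hβ : Sg β) (hX : ∀ x ∈ X, β x = 1) (ψ : G →* ℂˣ) :
    lc (ψ * β) - lc ψ ∈ JJ X := by
  have h1 := odd_JJ hs₀ hX₀ (ψ * β)
  have h2 := odd_JJ (s := β * s₀) (hβ.mul hs₀) (fun x hx => by
    rw [MonoidHom.mul_apply, hX x hx, hX₀ x hx, one_mul]) ψ
  have h3 : lc (ψ * β) - lc ψ = lc (ψ * β) + lc (ψ * β * s₀) - (lc ψ + lc (ψ * (β * s₀))) := by
    have h4 : ψ * β * s₀ = ψ * (β * s₀) := by
      ext g
      simp only [MonoidHom.mul_apply, mul_assoc]
    rw [h4]; abel
  rw [h3]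
  exact sub_mem h1 h2

end basic

end Pool.Agent.K4H74.ST
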