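import Mathlib
import Pool.Agent.K4H74.ST.Grp

/-!
# Monomial characters of degree two and towers of quadratic extensions
-/

set_option autoImplicit false
set_option linter.unusedSectionVars false

namespace Pool.Agent.K4H74.ST

open Pool.Agent.R389

section two

variable {G : Type} [Group G]

open Classical in
/-- the sign of the first basis vector -/
noncomputable def e1 (s : G →* ℂˣ) (t : G) (m : G → ℂˣ) (g : G) : ℂˣ :=
  if s g = 1 then m g else m (t⁻¹ * g)

open Classical in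
/-- the sign of the second basis vector -/
noncomputable def e2 (s : G →* ℂˣ) (t : G) (m : G → ℂˣ) (g : G) : ℂˣ :=
  if s g = 1 then m (t⁻¹ * g * t) else m (g * t)

lemma e1_pos {s : G →* ℂˣ} {t : G} {m : G → ℂˣ} {g : G} (h : s g = 1) : e1 s t m g = m g := by
  rw [e1, if_pos h]

lemma e1_neg {s : G →* ℂˣ} {t : G} {m : G → ℂˣ} {g : G} (h : s g = -1) :
    e1 s t m g = m (t⁻¹ * g) := by
  rw [e1, if_neg (by rw [h]; exact neg_one_ne)]

lemma e2_pos {s : G →* ℂˣ} {t : G} {m : G → ℂˣ} {g : G} (h : s g = 1) :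
    e2 s t m g = m (t⁻¹ * g * t) := by
  rw [e2, if_pos h]

lemma e2_neg {s : G →* ℂˣ} {t : G} {m : G → ℂˣ} {g : G} (h : s g = -1) :
    e2 s t m g = m (g * t) := by
  rw [e2, if_neg (by rw [h]; exact neg_one_ne)]

variable {s : G →* ℂˣ} (hs : Sg s) {t : G} (ht : s t = -1) {m : G → ℂˣ}
  (hm : ∀ a b, s a = 1 → s b = 1 → m (a * b) = m a * m b) (hm1 : ∀ a, s a = 1 → m a = 1 ∨ m a = -1)

include hs ht hm

open Classical in
lemma e1_mul (a b : G) :
    e1 s t m (a * b) = (if s b = 1 then e1 s t m a else e2 s t m a) * e1 s t m b := by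
  have hn : (-1 : ℂˣ) ≠ 1 := neg_one_ne
  have ht' : s t⁻¹ = -1 := by rw [map_inv, ht]; simp
  rcases hs a with ha | ha <;> rcases hs b with hb | hb
  · have hab : s (a * b) = 1 := by rw [map_mul, ha, hb, one_mul]
    rw [if_pos hb, e1_pos hab, e1_pos ha, e1_pos hb, hm a b ha hb]
  · have hab : s (a * b) = -1 := by rw [map_mul, ha, hb, one_mul]
    rw [if_neg (by rw [hb]; exact hn), e1_neg hab, e2_pos ha, e1_neg hb]
    have h1 : t⁻¹ * (a * b) = (t⁻¹ * a * t) * (t⁻¹ * b) := by group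
    rw [h1, hm]
    · rw [map_mul, map_mul, ha, ht, ht']; simp
    · rw [map_mul, hb, ht']; simp
  · have hab : s (a * b) = -1 := by rw [map_mul, ha, hb, mul_one]
    rw [if_pos hb, e1_neg hab, e1_neg ha, e1_pos hb]
    have h1 : t⁻¹ * (a * b) = (t⁻¹ * a) * b := by group
    rw [h1, hm _ _ (by rw [map_mul, ha, ht']; simp) hb]
  · have hab : s (a * b) = 1 := by rw [map_mul, ha, hb]; simp
    rw [if_neg (by rw [hb]; exact hn), e1_pos hab, e2_neg ha, e1_neg hb]
    have h1 : a * b = (a * t) * (t⁻¹ * b) := by group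
    rw [h1, hm _ _ (by rw [map_mul, ha, ht]; simp) (by rw [map_mul, hb, ht']; simp)]

open Classical in
lemma e2_mul (a b : G) :
    e2 s t m (a * b) = (if s b = 1 then e2 s t m a else e1 s t m a) * e2 s t m b := by
  have hn : (-1 : ℂˣ) ≠ 1 := neg_one_ne
  have ht' : s t⁻¹ = -1 := by rw [map_inv, ht]; simp
  rcases hs a with ha | ha <;> rcases hs b with hb | hb
  · have hab : s (a * b) = 1 := by rw [map_mul, ha, hb, one_mul]
    rw [if_pos hb, e2_pos hab, e2_pos ha, e2_pos hb]
    have h1 : t⁻¹ * (a * b) * t = (t⁻¹ * a * t) * (t⁻¹ * b * t) := by group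
    rw [h1, hm]
    · rw [map_mul, map_mul, ha, ht, ht']; simp
    · rw [map_mul, map_mul, hb, ht, ht']; simp
  · have hab : s (a * b) = -1 := by rw [map_mul, ha, hb, one_mul]
    rw [if_neg (by rw [hb]; exact hn), e2_neg hab, e1_pos ha, e2_neg hb]
    have h1 : a * b * t = a * (b * t) := by group
    rw [h1, hm _ _ ha (by rw [map_mul, hb, ht]; simp)]
  · have hab : s (a * b) = -1 := by rw [map_mul, ha, hb, mul_one]
    rw [if_pos hb, e2_neg hab, e2_neg ha, e2_pos hb]
    have h1 : a * b * t = (a * t) * (t⁻¹ * b * t) := by group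
    rw [h1, hm]
    · rw [map_mul, ha, ht]; simp
    · rw [map_mul, map_mul, hb, ht, ht']; simp
  · have hab : s (a * b) = 1 := by rw [map_mul, ha, hb]; simp
    rw [if_neg (by rw [hb]; exact hn), e2_pos hab, e1_neg ha, e2_neg hb]
    have h1 : t⁻¹ * (a * b) * t = (t⁻¹ * a) * (b * t) := by group
    rw [h1, hm _ _ (by rw [map_mul, ha, ht']; simp) (by rw [map_mul, hb, ht]; simp)]

/-- the determinant up to the sign of the permutation -/
noncomputable def etaHom : G →* ℂˣ :=
  MonoidHom.mk' (fun g => e1 s t m g * e2 s t m g) (by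
    intro a b
    rw [e1_mul hs ht hm, e2_mul hs ht hm]
    by_cases hb : s b = 1
    · rw [if_pos hb, if_pos hb]
      simp only [mul_comm, mul_left_comm, mul_assoc]
    · rw [if_neg hb, if_neg hb]
      simp only [mul_comm, mul_left_comm, mul_assoc])

lemma etaHom_apply (g : G) : etaHom hs ht hm g = e1 s t m g * e2 s t m g := rfl

include hm1

lemma e1_sg (a : G) : e1 s t m a = 1 ∨ e1 s t m a = -1 := by
  have ht' : s t⁻¹ = -1 := by rw [map_inv, ht]; simp
  rcases hs a with ha | ha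
  · rw [e1, if_pos ha]
    exact hm1 a ha
  · rw [e1, if_neg (by rw [ha]; exact neg_one_ne)]
    exact hm1 _ (by rw [map_mul, ha, ht']; simp)

lemma e2_sg (a : G) : e2 s t m a = 1 ∨ e2 s t m a = -1 := by
  have ht' : s t⁻¹ = -1 := by rw [map_inv, ht]; simp
  rcases hs a with ha | ha
  · rw [e2, if_pos ha]
    exact hm1 _ (by rw [map_mul, map_mul, ha, ht, ht']; simp)
  · rw [e2, if_neg (by rw [ha]; exact neg_one_ne)]
    exact hm1 _ (by rw [map_mul, ha, ht]; simp)

lemma etaHom_sg : Sg (etaHom hs ht hm) := by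
  intro g
  rw [etaHom_apply]
  rcases e1_sg hs ht hm hm1 g with h | h <;> rcases e2_sg hs ht hm hm1 g with h' | h' <;>
    rw [h, h'] <;> simp

lemma e_eq {g : G} (hg : etaHom hs ht hm g = 1) : e2 s t m g = e1 s t m g := by
  rw [etaHom_apply] at hg
  rcases e1_sg hs ht hm hm1 g with h | h <;> rcases e2_sg hs ht hm hm1 g with h' | h' <;>
    rw [h, h'] at hg ⊢
  · rw [one_mul] at hg; exact hg
  · rw [mul_one] at hg; exact hg.symm

lemma e1_ker {a b : G} (ha : etaHom hs ht hm a = 1) :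
    e1 s t m (a * b) = e1 s t m a * e1 s t m b := by
  rw [e1_mul hs ht hm, e_eq hs ht hm hm1 ha, ite_self]

lemma e1_conj {g u : G} (hg : etaHom hs ht hm g = 1) :
    e1 s t m (u⁻¹ * g * u) = if s g = 1 then e1 s t m g
      else etaHom hs ht hm u * e1 s t m g := by
  classical
  have hsq : ∀ a, e1 s t m a * e1 s t m a = 1 := by
    intro a
    rcases e1_sg hs ht hm hm1 a with h | h <;> rw [h] <;> simp
  have hsq' : ∀ a, e2 s t m a * e2 s t m a = 1 := by
    intro a
    rcases e2_sg hs ht hm hm1 a with h | h <;> rw [h] <;> simp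
  have hee := e_eq hs ht hm hm1 hg
  -- `g * u = u * (u⁻¹ * g * u)`
  have h1 : e1 s t m (g * u) = e1 s t m g * e1 s t m u := e1_ker hs ht hm hm1 hg
  have h2 : e1 s t m (g * u) = (if s (u⁻¹ * g * u) = 1 then e1 s t m u else e2 s t m u)
      * e1 s t m (u⁻¹ * g * u) := by
    have h3 : g * u = u * (u⁻¹ * g * u) := by group
    rw [h3, e1_mul hs ht hm]
  have hsc : s (u⁻¹ * g * u) = s g := by
    rw [map_mul, map_mul, map_inv, mul_comm (s u)⁻¹, mul_assoc, inv_mul_cancel, mul_one]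
  rw [hsc] at h2
  by_cases h : s g = 1
  · rw [if_pos h] at h2 ⊢
    have h4 := h1.symm.trans h2
    calc e1 s t m (u⁻¹ * g * u) = (e1 s t m u * e1 s t m u) * e1 s t m (u⁻¹ * g * u) := by
          rw [hsq, one_mul]
      _ = e1 s t m u * (e1 s t m g * e1 s t m u) := by rw [mul_assoc, ← h4]
      _ = e1 s t m g * (e1 s t m u * e1 s t m u) := by simp only [mul_comm, mul_left_comm, mul_assoc]
      _ = _ := by rw [hsq, mul_one]
  · rw [if_neg h] at h2 ⊢
    have h4 := h1.symm.trans h2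
    rw [etaHom_apply]
    calc e1 s t m (u⁻¹ * g * u) = (e2 s t m u * e2 s t m u) * e1 s t m (u⁻¹ * g * u) := by
          rw [hsq', one_mul]
      _ = e2 s t m u * (e1 s t m g * e1 s t m u) := by rw [mul_assoc, ← h4]
      _ = _ := by simp only [mul_comm, mul_left_comm, mul_assoc]

variable [Finite G]

/-- **The monomial character of degree two** modulo the characters induced from subgroups
disjoint from `X`. -/
theorem step {X : Set G} {s₀ : G →* ℂˣ} (hs₀ : Sg s₀) (hX₀ : ∀ x ∈ X, s₀ x = -1)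
    (hX : ∀ x ∈ X, s x = 1) (hsm : ∀ x ∈ X, ¬ (m x = -1 ∧ m (t⁻¹ * x * t) = -1)) (ψ : G →* ℂˣ) :
    ind s.ker (fun h => lc ψ h * ((m h : ℂˣ) : ℂ)) - lc (ψ * etaHom hs ht hm) - lc ψ
      ∈ JJ X := by
  classical
  set η := etaHom hs ht hm with hη
  have hηs : Sg η := etaHom_sg hs ht hm hm1
  have hψc : ∀ g x : G, lc ψ (x⁻¹ * g * x) = lc ψ g := by
    intro g x
    unfold lc
    rw [map_mul, map_mul, map_inv, mul_comm (ψ x)⁻¹, mul_assoc, inv_mul_cancel, mul_one]
  have hmsq : ∀ a, s a = 1 → m a * m a = 1 := by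
    intro a ha
    rcases hm1 a ha with h | h <;> rw [h] <;> simp
  have hmc : ∀ g x : G, s g = 1 → s x = 1 → m (x⁻¹ * g * x) = m g := by
    intro g x hg hx
    have hx' : s x⁻¹ = 1 := by rw [map_inv, hx, inv_one]
    have h1 : m 1 = 1 := by
      have := hm 1 1 (map_one s) (map_one s)
      rw [mul_one] at this
      exact (left_eq_mul₀ (m 1).ne_zero).mp (congrArg (fun u : ℂˣ => (u : ℂ)) this) |>
        fun h => Units.ext h
    have h2 : m x⁻¹ * m x = 1 := by rw [← hm _ _ hx' hx, inv_mul_cancel, h1]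
    rw [hm _ _ (by rw [map_mul, hx', hg, one_mul]) hx, hm _ _ hx' hg]
    calc m x⁻¹ * m g * m x = m g * (m x⁻¹ * m x) := by simp only [mul_comm, mul_left_comm, mul_assoc]
      _ = _ := by rw [h2, mul_one]
  -- the induced character
  have hL : ∀ g, ind s.ker (fun h => lc ψ h * ((m h : ℂˣ) : ℂ)) g
      = if s g = 1 then lc ψ g * ((e1 s t m g : ℂˣ) : ℂ) + lc ψ g * ((e2 s t m g : ℂˣ) : ℂ) else 0 := by
    intro g
    rw [ind_two hs ht (fun h => lc ψ h * ((m h : ℂˣ) : ℂ))]
    · by_cases h : s g = 1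
      · rw [if_pos h, if_pos h, e1, e2, if_pos h, if_pos h, hψc]
      · rw [if_neg h, if_neg h]
    · intro g x hg hx
      change lc ψ (x⁻¹ * g * x) * ((m (x⁻¹ * g * x) : ℂˣ) : ℂ) = lc ψ g * ((m g : ℂˣ) : ℂ)
      rw [hψc, hmc g x hg hx]
  -- the character of the kernel of `η`
  have hη1 : ∀ x ∈ X, η x = 1 → e1 s t m x = 1 := by
    intro x hx hηx
    have h1 := e_eq hs ht hm hm1 hηx
    rw [e1, e2, if_pos (hX x hx), if_pos (hX x hx)] at h1
    rw [e1, if_pos (hX x hx)]
    refine (hm1 x (hX x hx)).resolve_right fun h2 => hsm x hx ⟨h2, ?_⟩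
    rw [h1, h2]
  let β : η.ker →* ℂˣ := MonoidHom.mk' (fun h => e1 s t m h) (fun a b =>
    e1_ker hs ht hm hm1 a.2)
  have hβ : Sg β := fun h => e1_sg hs ht hm hm1 h
  have hev : lc ((ψ.comp η.ker.subtype) * β) - lc (ψ.comp η.ker.subtype)
      ∈ JJ {x : η.ker | (x : G) ∈ X} := by
    refine even_JJ (s₀ := s₀.comp η.ker.subtype) (fun h => hs₀ h) (fun x hx => hX₀ x hx) hβ
      (fun x hx => hη1 x hx x.2) _
  have hev2 := ind_JJ η.ker hev
  rw [ind_sub] at hev2
  by_cases hu : ∃ u, η u = -1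
  · obtain ⟨u, hu⟩ := hu
    have h1 : ind η.ker (lc (ψ.comp η.ker.subtype)) = lc ψ + lc (ψ * η) := ind_two' hηs hu ψ
    have h2 : ind η.ker (lc ((ψ.comp η.ker.subtype) * β))
        = ind s.ker (fun h => lc ψ h * ((m h : ℂˣ) : ℂ)) := by
      funext g
      rw [hL]
      have h3 : lc ((ψ.comp η.ker.subtype) * β)
          = fun h : η.ker => (fun y : G => lc ψ y * ((e1 s t m y : ℂˣ) : ℂ)) h := by
        funext h
        unfold lc
        rw [MonoidHom.mul_apply, Units.val_mul]
        rfl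
      rw [h3, ind_two hηs hu (fun y : G => lc ψ y * ((e1 s t m y : ℂˣ) : ℂ))]
      · by_cases hg : η g = 1
        · rw [if_pos hg, e1_conj hs ht hm hm1 hg, hψc, e_eq hs ht hm hm1 hg, ← hη, hu]
          by_cases hsg : s g = 1
          · rw [if_pos hsg, if_pos hsg]
          · rw [if_neg hsg, if_neg hsg]
            simp
        · rw [if_neg hg]
          by_cases hsg : s g = 1
          · rw [if_pos hsg]
            have h4 : η g = -1 := (hηs g).resolve_left hg
            rw [hη, etaHom_apply] at h4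
            rcases e1_sg hs ht hm hm1 g with h | h <;> rcases e2_sg hs ht hm hm1 g with h' | h' <;>
              rw [h, h'] at h4 ⊢
            · rw [one_mul] at h4; exact absurd h4.symm neg_one_ne
            · simp
            · simp
            · rw [neg_mul_neg, one_mul] at h4; exact absurd h4.symm neg_one_ne
          · rw [if_neg hsg]
      · intro g x hg hx
        change lc ψ (x⁻¹ * g * x) * ((e1 s t m (x⁻¹ * g * x) : ℂˣ) : ℂ)
          = lc ψ g * ((e1 s t m g : ℂˣ) : ℂ)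
        rw [hψc, e1_conj hs ht hm hm1 hg, ← hη, hx, one_mul, ite_self]
    rw [h1, h2] at hev2
    have h5 : ind s.ker (fun h => lc ψ h * ((m h : ℂˣ) : ℂ)) - lc (ψ * η) - lc ψ
        = ind s.ker (fun h => lc ψ h * ((m h : ℂˣ) : ℂ)) - (lc ψ + lc (ψ * η)) := by abel
    rw [h5]
    exact hev2
  · push Not at hu
    have hη0 : ∀ g, η g = 1 := fun g => (hηs g).resolve_right (hu g)
    let β' : G →* ℂˣ := MonoidHom.mk' (fun h => e1 s t m h) (fun a b =>
      e1_ker hs ht hm hm1 (hη0 a))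
    have hβ' : Sg β' := fun h => e1_sg hs ht hm hm1 h
    have hβX : ∀ x ∈ X, β' x = 1 := fun x hx => hη1 x hx (hη0 x)
    have h1 := even_JJ hs₀ hX₀ hβ' hβX ψ
    have h2 := even_JJ hs₀ hX₀ (hβ'.mul hs) (fun x hx => by
      rw [MonoidHom.mul_apply, hβX x hx, hX x hx, one_mul]) ψ
    have h3 : ind s.ker (fun h => lc ψ h * ((m h : ℂˣ) : ℂ)) - lc (ψ * η) - lc ψ
        = (lc (ψ * β') - lc ψ) + (lc (ψ * (β' * s)) - lc ψ) := by
      have h4 : η = 1 := by ext g; rw [hη0 g]; rfl
      have h6 : ψ * 1 = ψ := by ext g; simp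
      rw [h4, h6]
      have h5 : ind s.ker (fun h => lc ψ h * ((m h : ℂˣ) : ℂ)) = lc (ψ * β') + lc (ψ * (β' * s)) := by
        funext g
        rw [hL, Pi.add_apply, e_eq hs ht hm hm1 (hη0 g)]
        unfold lc
        simp only [MonoidHom.mul_apply, Units.val_mul]
        by_cases hsg : s g = 1
        · rw [if_pos hsg, hsg]
          change _ = _ * ((e1 s t m g : ℂˣ) : ℂ) + _ * (((e1 s t m g : ℂˣ) : ℂ) * _)
          simp
        · rw [if_neg hsg, (hs g).resolve_left hsg]
          simp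
      rw [h5]; abel
    rw [h3]
    exact add_mem h1 h2

end two

end Pool.Agent.K4H74.ST
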