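import Mathlib
import Pool.Agent.K4H74.ST.Two

/-!
# Towers of quadratic extensions

For a linear character `ψ` of `2`-power order which is trivial on `X`, the character
`(ψ - 1) * (η - 1)` is a combination of characters induced from subgroups disjoint from `X`, for
suitable sign characters `η`.
-/

set_option autoImplicit false
set_option linter.unusedSectionVars false

namespace Pool.Agent.K4H74.ST

open Pool.Agent.R389

theorem tower : ∀ (k : ℕ) (G : Type) [Group G] [Finite G] (X : Set G)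
    (_ : ∀ x ∈ X, ∀ g : G, g⁻¹ * x * g ∈ X) (s₀ : G →* ℂˣ) (_ : Sg s₀)
    (_ : ∀ x ∈ X, s₀ x = -1) (ψ : G →* ℂˣ) (_ : ∀ g, ψ g ^ (2 ^ k) = 1) (_ : ∀ x ∈ X, ψ x = 1)
    (m : G → ℂˣ) (_ : ∀ a b, ψ a = 1 → ψ b = 1 → m (a * b) = m a * m b)
    (_ : ∀ a, ψ a = 1 → m a = 1 ∨ m a = -1)
    (_ : ∀ x ∈ X, ∀ σ τ, m (σ⁻¹ * x * σ) = -1 → m (τ⁻¹ * x * τ) = -1 → ψ σ = ψ τ),
    ∃ η : G →* ℂˣ, Sg η ∧ (∀ x ∈ X, η x = -1 ↔ ∃ σ, m (σ⁻¹ * x * σ) = -1) ∧
      lc (ψ * η) - lc ψ - lc η + lc 1 ∈ JJ X := by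
  intro k
  induction k with
  | zero =>
    intro G _ _ X hXc s₀ hs₀ hX₀ ψ hψ hψX m hm hm1 hc
    have h1 : ∀ g, ψ g = 1 := fun g => by simpa using hψ g
    let η : G →* ℂˣ := MonoidHom.mk' m (fun a b => hm a b (h1 a) (h1 b))
    refine ⟨η, fun g => hm1 g (h1 g), fun x _ => ⟨fun h => ⟨1, ?_⟩, ?_⟩, ?_⟩
    · rw [inv_one, one_mul, mul_one]; exact h
    · rintro ⟨σ, hσ⟩
      change η (σ⁻¹ * x * σ) = -1 at hσ
      rw [map_mul, map_mul, map_inv, mul_comm (η σ)⁻¹, mul_assoc, inv_mul_cancel, mul_one] at hσ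
      exact hσ
    · have h2 : ψ = 1 := by ext g; rw [h1 g]; rfl
      have h3 : (1 : G →* ℂˣ) * η = η := by ext g; simp
      have h4 : lc (ψ * η) - lc ψ - lc η + lc 1 = 0 := by rw [h2, h3]; abel
      rw [h4]
      exact zero_mem _
  | succ k ih =>
    intro G _ _ X hXc s₀ hs₀ hX₀ ψ hψ hψX m hm hm1 hc
    classical
    let s : G →* ℂˣ := ψ ^ (2 ^ k)
    have hsa : ∀ g, s g = ψ g ^ (2 ^ k) := fun g => rfl
    have hs : Sg s := by
      intro g
      have h1 : s g * s g = 1 := by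
        rw [hsa, ← pow_add, ← two_mul, ← pow_succ', hψ g]
      have h2 : ((s g : ℂˣ) : ℂ) * ((s g : ℂˣ) : ℂ) = 1 := by
        rw [← Units.val_mul, h1, Units.val_one]
      rcases mul_self_eq_one_iff.mp h2 with h3 | h3
      · left; exact Units.ext h3
      · right; exact Units.ext (by rw [h3]; simp)
    by_cases hst : ∃ t, s t = -1
    swap
    · push Not at hst
      have h1 : ∀ g, s g = 1 := fun g => (hs g).resolve_right (hst g)
      exact ih G X hXc s₀ hs₀ hX₀ ψ h1 hψX m hm hm1 hc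
    obtain ⟨t, ht⟩ := hst
    have ht' : s t⁻¹ = -1 := by rw [map_inv, ht]; simp
    have hsX : ∀ x ∈ X, s x = 1 := fun x hx => by rw [hsa, hψX x hx, one_pow]
    have hsc : ∀ g x : G, s (x⁻¹ * g * x) = s g := by
      intro g x
      rw [map_mul, map_mul, map_inv, mul_comm (s x)⁻¹, mul_assoc, inv_mul_cancel, mul_one]
    let X' : Set s.ker := {x | (x : G) ∈ X}
    obtain ⟨η₁, hη₁, hη₁X, hrel⟩ := ih s.ker X' (fun x hx g => hXc x hx g)
      (s₀.comp s.ker.subtype) (fun h => hs₀ h) (fun x hx => hX₀ x hx) (ψ.comp s.ker.subtype)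
      (fun g => g.2) (fun x hx => hψX x hx) (fun g => m g)
      (fun a b ha hb => hm a b ha hb) (fun a ha => hm1 a ha)
      (fun x hx σ τ h h' => hc x hx σ τ h h')
    let m₁ : G → ℂˣ := fun g => if h : s g = 1 then η₁ ⟨g, h⟩ else 1
    have hm₁ : ∀ g (h : s g = 1), m₁ g = η₁ ⟨g, h⟩ := fun g h => dif_pos h
    have hmm : ∀ a b, s a = 1 → s b = 1 → m₁ (a * b) = m₁ a * m₁ b := by
      intro a b ha hb
      have hab : s (a * b) = 1 := by rw [map_mul, ha, hb, one_mul]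
      rw [hm₁ a ha, hm₁ b hb, hm₁ _ hab, ← map_mul]
      rfl
    have hm₁s : ∀ a, s a = 1 → m₁ a = 1 ∨ m₁ a = -1 := by
      intro a ha
      rw [hm₁ a ha]
      exact hη₁ _
    have hm₁X : ∀ x ∈ X, m₁ x = -1 ↔ ∃ σ, s σ = 1 ∧ m (σ⁻¹ * x * σ) = -1 := by
      intro x hx
      rw [hm₁ x (hsX x hx), hη₁X _ hx]
      constructor
      · rintro ⟨σ, hσ⟩
        exact ⟨σ, σ.2, hσ⟩
      · rintro ⟨σ, hσ1, hσ⟩
        exact ⟨⟨σ, hσ1⟩, hσ⟩
    have hm₁X' : ∀ x ∈ X, m₁ (t⁻¹ * x * t) = -1 ↔ ∃ σ, s σ = -1 ∧ m (σ⁻¹ * x * σ) = -1 := by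
      intro x hx
      rw [hm₁X _ (hXc x hx t)]
      constructor
      · rintro ⟨σ, hσ1, hσ⟩
        refine ⟨t * σ, by rw [map_mul, ht, hσ1, mul_one], ?_⟩
        rw [← hσ]
        congr 1
        group
      · rintro ⟨σ, hσ1, hσ⟩
        refine ⟨t⁻¹ * σ, by rw [map_mul, ht', hσ1]; simp, ?_⟩
        rw [← hσ]
        congr 1
        group
    have hsm : ∀ x ∈ X, ¬ (m₁ x = -1 ∧ m₁ (t⁻¹ * x * t) = -1) := by
      rintro x hx ⟨h1, h2⟩
      obtain ⟨σ, hσ1, hσ⟩ := (hm₁X x hx).mp h1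
      obtain ⟨τ, hτ1, hτ⟩ := (hm₁X' x hx).mp h2
      have h3 := hc x hx σ τ hσ hτ
      have h4 : s σ = s τ := by rw [hsa, hsa, h3]
      rw [hσ1, hτ1] at h4
      exact neg_one_ne h4.symm
    let η := etaHom hs ht hmm
    have hηs : Sg η := etaHom_sg hs ht hmm hm₁s
    refine ⟨η, hηs, fun x hx => ?_, ?_⟩
    · have h1 : η x = m₁ x * m₁ (t⁻¹ * x * t) := by
        change e1 s t m₁ x * e2 s t m₁ x = _
        rw [e1_pos (hsX x hx), e2_pos (hsX x hx)]
      have h2 := hsm x hx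
      have h3 := hm₁s x (hsX x hx)
      have h4 := hm₁s (t⁻¹ * x * t) (by rw [hsc, hsX x hx])
      rw [h1]
      constructor
      · intro h5
        rcases h3 with h3 | h3
        · rw [h3, one_mul] at h5
          obtain ⟨σ, _, hσ⟩ := (hm₁X' x hx).mp h5
          exact ⟨σ, hσ⟩
        · obtain ⟨σ, _, hσ⟩ := (hm₁X x hx).mp h3
          exact ⟨σ, hσ⟩
      · rintro ⟨σ, hσ⟩
        rcases hs σ with h | h
        · have h5 := (hm₁X x hx).mpr ⟨σ, h, hσ⟩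
          rw [h5, h4.resolve_right (fun h6 => h2 ⟨h5, h6⟩), mul_one]
        · have h5 := (hm₁X' x hx).mpr ⟨σ, h, hσ⟩
          rw [h5, h3.resolve_right (fun h6 => h2 ⟨h6, h5⟩), one_mul]
    · have r1 := step hs ht hmm hm₁s hs₀ hX₀ hsX hsm ψ
      have r2 := step hs ht hmm hm₁s hs₀ hX₀ hsX hsm 1
      have r3 := ind_JJ s.ker hrel
      have r4 := even_JJ hs₀ hX₀ hs hsX ψ
      have r5 := even_JJ hs₀ hX₀ hs hsX (1 : G →* ℂˣ)
      rw [← indHom_apply, map_add, map_sub, map_sub, indHom_apply, indHom_apply, indHom_apply,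
        indHom_apply] at r3
      have i1 : ind s.ker (lc ((ψ.comp s.ker.subtype) * η₁))
          = ind s.ker (fun h => lc ψ h * ((m₁ h : ℂˣ) : ℂ)) := by
        congr 1
        funext h
        rw [hm₁ h h.2]
        unfold lc
        rw [MonoidHom.mul_apply, Units.val_mul]
        rfl
      have i2 : ind s.ker (lc (ψ.comp s.ker.subtype)) = lc ψ + lc (ψ * s) := ind_two' hs ht ψ
      have i3 : ind s.ker (lc η₁) = ind s.ker (fun h => lc (1 : G →* ℂˣ) h * ((m₁ h : ℂˣ) : ℂ)) := by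
        congr 1
        funext h
        rw [hm₁ h h.2]
        unfold lc
        simp
      have i4 : ind s.ker (lc (1 : s.ker →* ℂˣ)) = lc (1 : G →* ℂˣ) + lc (1 * s) := ind_two' hs ht 1
      rw [i1, i2, i3, i4] at r3
      have e0 : (1 : G →* ℂˣ) * η = η := by ext g; simp
      have r2' : ind s.ker (fun h => lc (1 : G →* ℂˣ) h * ((m₁ h : ℂˣ) : ℂ)) - lc η - lc 1 ∈ JJ X := by
        have := r2
        rwa [show (1 : G →* ℂˣ) * etaHom hs ht hmm = η from e0] at this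
      have h6 : lc (ψ * η) - lc ψ - lc η + lc 1
          = - (ind s.ker (fun h => lc ψ h * ((m₁ h : ℂˣ) : ℂ)) - lc (ψ * η) - lc ψ)
            + (ind s.ker (fun h => lc (1 : G →* ℂˣ) h * ((m₁ h : ℂˣ) : ℂ)) - lc η - lc 1)
            + (ind s.ker (fun h => lc ψ h * ((m₁ h : ℂˣ) : ℂ)) - (lc ψ + lc (ψ * s))
              - ind s.ker (fun h => lc (1 : G →* ℂˣ) h * ((m₁ h : ℂˣ) : ℂ))
              + (lc 1 + lc (1 * s)))
            + (lc (ψ * s) - lc ψ) - (lc (1 * s) - lc 1) := by abel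
      rw [h6]
      exact sub_mem (add_mem (add_mem (add_mem (neg_mem r1) r2') r3) r4) r5

end Pool.Agent.K4H74.ST
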