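import Mathlib
import Pool.Agent.K4H74.ST.Tower

/-!
# The odd part of a linear character
-/

set_option autoImplicit false
set_option linter.unusedSectionVars false

namespace Pool.Agent.K4H74.ST

open Pool.Agent.R389

lemma unit_one {M : Type} [Group M] {u : M} {a b : ℕ} (ha : u ^ a = 1) (hb : u ^ b = 1)
    (hab : a.Coprime b) : u = 1 := by
  have h1 := orderOf_dvd_of_pow_eq_one ha
  have h2 := orderOf_dvd_of_pow_eq_one hb
  have h3 := Nat.dvd_gcd h1 h2
  rw [hab.gcd_eq_one, Nat.dvd_one, orderOf_eq_one_iff] at h3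
  exact h3

/-- A linear character of odd order of a hyperelementary group is trivial if it is trivial on the
centraliser of an involution. -/
theorem hyper_odd {H : Type} [Group H] [Finite H] (hH : Hyper H) {c : H} (hc : c * c = 1)
    (hc1 : c ≠ 1) (χ : H →* ℂˣ) {m : ℕ} (hm : Odd m) (hχ : ∀ h, χ h ^ m = 1)
    (hcom : ∀ h, h * c = c * h → χ h = 1) (h : H) : χ h = 1 := by
  obtain ⟨p, hp, c₀, hcop, hcn, hpw⟩ := hH
  have hcinv : c⁻¹ = c := inv_eq_of_mul_eq_one_left hc
  have hm2 : Nat.Coprime m 2 := Nat.coprime_two_right.mpr hm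
  by_cases hp2 : p = 2
  · subst hp2
    have h1 : χ c₀ = 1 := by
      obtain ⟨j, hj⟩ := Subgroup.mem_zpowers_iff.mp (hcn c)
      have h2 : χ (c₀ * (c * c₀ * c⁻¹)) = 1 := by
        apply hcom
        rw [← hj]
        have h3 : c₀ * c₀ ^ j = c₀ ^ j * c₀ := by
          rw [← zpow_one_add, ← zpow_add_one, add_comm]
        have h4 : c * c₀ = c₀ ^ j * c := by rw [hj]; group
        have h5 : c * c₀ ^ j = c₀ * c := by
          rw [hj]
          have : c * (c * c₀ * c⁻¹) = (c * c) * c₀ * c⁻¹ := by group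
          rw [this, hc, one_mul, hcinv]
        calc c₀ * c₀ ^ j * c = c₀ ^ j * c₀ * c := by rw [h3]
          _ = c₀ ^ j * (c * c₀ ^ j) := by rw [h5, mul_assoc]
          _ = (c₀ ^ j * c) * c₀ ^ j := by rw [mul_assoc]
          _ = c * c₀ * c₀ ^ j := by rw [h4]
          _ = c * (c₀ * c₀ ^ j) := by rw [mul_assoc]
      have h6 : χ c₀ ^ 2 = 1 := by
        rw [map_mul, map_mul, map_mul, map_inv, mul_comm (χ c), mul_assoc (χ c₀), mul_inv_cancel,
          mul_one] at h2
        rw [pow_two, h2]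
      exact unit_one (hχ c₀) h6 hm2
    obtain ⟨k, hk⟩ := hpw h
    obtain ⟨j, hj⟩ := Subgroup.mem_zpowers_iff.mp hk
    have h2 : χ h ^ (2 ^ k) = 1 := by rw [← map_pow, ← hj, map_zpow, h1, one_zpow]
    exact unit_one (hχ h) h2 (Nat.Coprime.pow_right k hm2)
  · have hpo : Odd p := hp.odd_of_ne_two hp2
    have hcz : c ∈ Subgroup.zpowers c₀ := by
      obtain ⟨k, hk⟩ := hpw c
      have h1 : c ^ (p ^ k) = c := by
        obtain ⟨j, hj⟩ := (hpo.pow : Odd (p ^ k))
        rw [hj, pow_succ, pow_mul, pow_two, hc, one_pow, one_mul]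
      rwa [h1] at hk
    apply hcom
    have h2 : h * c * h⁻¹ ∈ Subgroup.zpowers c₀ := by
      obtain ⟨j, hj⟩ := Subgroup.mem_zpowers_iff.mp hcz
      rw [← hj, ← conj_zpow]
      exact zpow_mem (hcn h) j
    have h3 : (h * c * h⁻¹) * (h * c * h⁻¹) = 1 := by
      have : (h * c * h⁻¹) * (h * c * h⁻¹) = h * (c * c) * h⁻¹ := by group
      rw [this, hc]; group
    have h4 : h * c * h⁻¹ ≠ 1 := by
      intro h5
      apply hc1
      have : c = h⁻¹ * (h * c * h⁻¹) * h := by group
      rw [this, h5]; group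
    by_contra hcon
    have h5 : h * c * h⁻¹ ≠ c := by
      intro h6
      apply hcon
      calc h * c = h * c * h⁻¹ * h := by group
        _ = _ := by rw [h6]
    classical
    have hfin : Fintype (Subgroup.zpowers c₀) := Fintype.ofFinite _
    let a1 : Subgroup.zpowers c₀ := 1
    let a2 : Subgroup.zpowers c₀ := ⟨c, hcz⟩
    let a3 : Subgroup.zpowers c₀ := ⟨h * c * h⁻¹, h2⟩
    have h6 := IsCyclic.card_pow_eq_one_le (α := Subgroup.zpowers c₀) (n := 2) two_pos
    have h7 : ({a1, a2, a3} : Finset (Subgroup.zpowers c₀))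
        ⊆ Finset.univ.filter (fun a => a ^ 2 = 1) := by
      intro a ha
      rw [Finset.mem_filter]
      refine ⟨Finset.mem_univ _, ?_⟩
      simp only [Finset.mem_insert, Finset.mem_singleton] at ha
      rcases ha with rfl | rfl | rfl
      · exact one_pow 2
      · apply Subtype.ext
        change c ^ 2 = 1
        rw [pow_two, hc]
      · apply Subtype.ext
        change (h * c * h⁻¹) ^ 2 = 1
        rw [pow_two, h3]
    have h8 : ({a1, a2, a3} : Finset (Subgroup.zpowers c₀)).card = 3 := by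
      rw [Finset.card_eq_three]
      refine ⟨a1, a2, a3, ?_, ?_, ?_, rfl⟩
      · intro h9; exact hc1 (congrArg Subtype.val h9).symm
      · intro h9; exact h4 (congrArg Subtype.val h9).symm
      · intro h9; exact h5 (congrArg Subtype.val h9).symm
    have h9 := (Finset.card_le_card h7).trans h6
    omega

/-- linear characters which agree on the hyperelementary subgroups which meet `X` -/
theorem sol_JJ {G : Type} [Group G] [Finite G] {X : Set G} (ψ ψ₂ : G →* ℂˣ)
    (h : ∀ H : Subgroup G, Hyper H → (∃ x ∈ X, x ∈ H) → ∀ g ∈ H, ψ g = ψ₂ g) :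
    lc ψ - lc ψ₂ ∈ JJ X := by
  let Φ : (G → ℂ) →+ (G → ℂ) := AddMonoidHom.mk' (fun f g => f g * (lc ψ - lc ψ₂) g)
    (fun a b => by
      funext g
      change (a g + b g) * _ = a g * _ + b g * _
      ring)
  have h1 : Sol G ≤ (JJ X).comap Φ := by
    rw [Sol, AddSubgroup.closure_le]
    rintro f ⟨U, hU, rfl⟩
    rw [SetLike.mem_coe, AddSubgroup.mem_comap]
    have h2 : Φ (ind U (fun _ => (1 : ℂ))) = ind U (fun u => lc ψ u) - ind U (fun u => lc ψ₂ u) := by
      rw [← ind_sub]
      funext g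
      change ind U (fun _ => (1 : ℂ)) g * (lc ψ - lc ψ₂) g = _
      rw [← ind_mul U (fun _ => (1 : ℂ)) (F := lc ψ - lc ψ₂)]
      · congr 1
        funext u
        rw [one_mul]
        rfl
      · intro g x
        change lc ψ _ - lc ψ₂ _ = lc ψ _ - lc ψ₂ _
        unfold lc
        rw [lin_conj, lin_conj]
    rw [h2]
    by_cases hx : ∃ x ∈ X, x ∈ U
    · have h3 : (fun u : U => lc ψ u) = (fun u : U => lc ψ₂ u) := by
        funext u
        unfold lc
        rw [h U hU hx u u.2]
      rw [h3, sub_self]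
      exact zero_mem _
    · push Not at hx
      exact sub_mem (free_JJ hx (ψ.comp U.subtype)) (free_JJ hx (ψ₂.comp U.subtype))
  have h3 := h1 (one_mem_sol (G := G))
  rw [AddSubgroup.mem_comap] at h3
  have h4 : Φ (fun _ => 1) = lc ψ - lc ψ₂ := by
    funext g
    change (1 : ℂ) * (lc ψ - lc ψ₂) g = _
    rw [one_mul]
  rwa [h4] at h3

end Pool.Agent.K4H74.ST
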