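import Mathlib
import Pool.Agent.K4H74.ST.Fld
import Pool.Agent.K4H74.ST.Hyp

/-!
# The two extensions of a Galois extension of number fields
-/

set_option autoImplicit false
set_option linter.unusedSectionVars false

namespace Pool.Agent.K4H74.ST

open NumberField NumberField.ComplexEmbedding Pool.Agent.R389

section signs

variable {K N : Type} [Field K] [Field N] [CharZero N] [Algebra K N]

open Classical in
/-- the sign of an automorphism on a square root -/
noncomputable def sgn (w : N) (g : N ≃ₐ[K] N) : ℂˣ := if g w = w then 1 else -1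

lemma sgn_sg (w : N) (g : N ≃ₐ[K] N) : sgn w g = 1 ∨ sgn w g = -1 := by
  unfold sgn
  by_cases h : g w = w
  · left; rw [if_pos h]
  · right; rw [if_neg h]

lemma sgn_eq_one {w : N} {g : N ≃ₐ[K] N} : sgn w g = 1 ↔ g w = w := by
  unfold sgn
  by_cases h : g w = w
  · rw [if_pos h]; simp [h]
  · rw [if_neg h]
    exact ⟨fun h1 => absurd h1 neg_one_ne, fun h1 => absurd h1 h⟩

lemma sgn_eq_neg {w : N} {g : N ≃ₐ[K] N} : sgn w g = -1 ↔ g w ≠ w := by
  rw [Ne, ← sgn_eq_one]
  constructor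
  · intro h h1
    rw [h1] at h
    exact neg_one_ne h.symm
  · intro h
    exact (sgn_sg w g).resolve_left h

lemma sgn_mul {w : N} {a b : N ≃ₐ[K] N} (ha : a w = w ∨ a w = -w) (hb : b w = w ∨ b w = -w) :
    sgn w (a * b) = sgn w a * sgn w b := by
  have hab : (a * b) w = a (b w) := rfl
  by_cases hw : w = 0
  · subst hw
    have h : ∀ g : N ≃ₐ[K] N, sgn (0 : N) g = 1 := fun g => sgn_eq_one.mpr (map_zero g)
    rw [h, h, h, one_mul]
  have hn : -w ≠ w := fun h => hw (self_eq_neg.mp h.symm)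
  have hp : ∀ g : N ≃ₐ[K] N, g w = -w → sgn w g = -1 := fun g hg =>
    sgn_eq_neg.mpr (by rw [hg]; exact hn)
  rcases ha with ha | ha <;> rcases hb with hb | hb
  · rw [sgn_eq_one.mpr ha, sgn_eq_one.mpr hb, one_mul, sgn_eq_one, hab, hb, ha]
  · rw [sgn_eq_one.mpr ha, hp b hb, hp (a * b) (by rw [hab, hb, map_neg, ha]), one_mul]
  · rw [sgn_eq_one.mpr hb, hp a ha, hp (a * b) (by rw [hab, hb, ha]), mul_one]
  · rw [hp a ha, hp b hb, neg_mul_neg, one_mul, sgn_eq_one, hab, hb, map_neg, ha, neg_neg]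

lemma pm_of_sq {w : N} {g : N ≃ₐ[K] N} (h : g (w * w) = w * w) : g w = w ∨ g w = -w := by
  rw [map_mul] at h
  exact mul_self_eq_mul_self_iff.mp h

/-- the sign character of a square root of an element of the base field -/
noncomputable def sgnHom (w : N) (h : ∀ g : N ≃ₐ[K] N, g (w * w) = w * w) :
    (N ≃ₐ[K] N) →* ℂˣ :=
  MonoidHom.mk' (sgn w) (fun a b => sgn_mul (pm_of_sq (h a)) (pm_of_sq (h b)))

lemma sgnHom_sg (w : N) (h : ∀ g : N ≃ₐ[K] N, g (w * w) = w * w) : Sg (sgnHom w h) :=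
  fun g => sgn_sg w g

end signs

section

variable {K L : Type} [Field K] [NumberField K] [Field L] [NumberField L] [Algebra K L]
  [IsGalois K L]

lemma odd_i {N : Type} [Field N] [NumberField N] [Algebra K N] {j : N} (hj : j * j = -1) :
    ∃ s : (N ≃ₐ[K] N) →* ℂˣ, Sg s ∧ ∀ c ∈ CC K N, s c = -1 := by
  refine ⟨sgnHom j (fun g => by rw [hj, map_neg, map_one]), sgnHom_sg _ _, ?_⟩
  rintro c ⟨φ, hφ⟩
  change sgn j c = -1
  have h1 : c j = - j := by
    refine sqrt_neg hφ ?_ ?_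
    · rw [hj, map_neg, map_one]; simp
    · rw [hj, map_neg, map_one]; simp
  rw [sgn_eq_neg, h1]
  intro h2
  have h3 : j = 0 := self_eq_neg.mp h2.symm
  rw [h3, mul_zero] at hj
  exact one_ne_zero (neg_eq_zero.mp hj.symm)

/-- **The extension for a linear character of `2`-power order.** -/
theorem exists_tower (ψ : (L ≃ₐ[K] L) →* ℂˣ) (k : ℕ) (hψ : ∀ g, ψ g ^ (2 ^ k) = 1)
    (hψC : ∀ c ∈ CC K L, ψ c = 1) (Y : Set (K →+* ℂ)) :
    ∃ (N : Type) (_ : Field N) (_ : NumberField N) (_ : Algebra K N) (_ : Algebra L N)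
      (_ : IsScalarTower K L N) (_ : IsGalois K N),
      ∃ η : (N ≃ₐ[K] N) →* ℂˣ, Sg η ∧
        (∀ (φ : N →+* ℂ) (c : N ≃ₐ[K] N), IsConj φ c →
          (η c = -1 ↔ φ.comp (algebraMap K N) ∈ Y)) ∧
        lc (ψ.comp (AlgEquiv.restrictNormalHom L) * η) - lc (ψ.comp (AlgEquiv.restrictNormalHom L))
          - lc η + lc 1 ∈ JJ (CC K N) := by
  classical
  let L₀ : IntermediateField K L := IntermediateField.fixedField ψ.ker
  have hL₀ : NumberField L₀ := inferInstance
  let S : Set (L₀ →+* ℂ) := {s | ∃ κ ∈ Y, s = ComplexEmbedding.lift L₀ κ}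
  obtain ⟨α, hα⟩ := exists_sign L₀ S
  obtain ⟨N, i1, i2, i3, i4, i5, i6, hN⟩ := exists_ext K L {(α : L), -1}
  obtain ⟨w, hw⟩ := hN (α : L) (by simp)
  obtain ⟨j, hj⟩ := hN (-1) (by simp)
  rw [map_neg, map_one] at hj
  refine ⟨N, i1, i2, i3, i4, i5, i6, ?_⟩
  obtain ⟨s₀, hs₀, hX₀⟩ := odd_i (K := K) hj
  let π : (N ≃ₐ[K] N) →* (L ≃ₐ[K] L) := AlgEquiv.restrictNormalHom L
  have hπ : ∀ (g : N ≃ₐ[K] N) (x : L), algebraMap L N (π g x) = g (algebraMap L N x) :=
    fun g x => res_apply g x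
  have hfin : FiniteDimensional K L := Module.Finite.of_restrictScalars_finite ℚ K L
  have hfinN : FiniteDimensional K N := Module.Finite.of_restrictScalars_finite ℚ K N
  have hker : ∀ h : L ≃ₐ[K] L, ψ h = 1 ↔ ∀ x : L₀, h x = x := by
    intro h
    constructor
    · intro hh x
      exact x.2 ⟨h, hh⟩
    · intro hh
      have h1 : h ∈ L₀.fixingSubgroup := by
        rw [IntermediateField.mem_fixingSubgroup_iff]
        intro x hx
        exact hh ⟨x, hx⟩
      rw [IntermediateField.fixingSubgroup_fixedField] at h1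
      exact h1
  let ψ' : (N ≃ₐ[K] N) →* ℂˣ := ψ.comp π
  have hkerα : ∀ g : N ≃ₐ[K] N, ψ' g = 1 → g (w * w) = w * w := by
    intro g hg
    rw [hw, ← hπ, (hker _).mp hg α]
  -- the real embeddings of `L₀`
  let ρ : (N →+* ℂ) → (L₀ →+* ℂ) := fun φ => (φ.comp (algebraMap L N)).comp (algebraMap L₀ L)
  have hρ : ∀ (φ : N →+* ℂ) (c : N ≃ₐ[K] N), IsConj φ c → IsReal (ρ φ) := by
    intro φ c hφ
    have h1 := isConj_res (L := L) hφ
    have h2 : ψ (π c) = 1 := hψC _ (CC_res ⟨φ, hφ⟩)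
    ext x
    have h3 := (hker _).mp h2 x
    change star (φ (algebraMap L N (x : L))) = φ (algebraMap L N (x : L))
    rw [← hφ.eq, ← hπ, h3]
  have hρw : ∀ φ : N →+* ℂ, φ (w * w) = ρ φ α := by
    intro φ
    rw [hw]
    rfl
  have hρK : ∀ φ : N →+* ℂ, (ρ φ).comp (algebraMap K L₀) = φ.comp (algebraMap K N) := by
    intro φ
    ext x
    change φ (algebraMap L N (algebraMap L₀ L (algebraMap K L₀ x))) = φ (algebraMap K N x)
    rw [← IsScalarTower.algebraMap_apply K L₀ L, ← IsScalarTower.algebraMap_apply K L N]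
  have key : ∀ (φ : N →+* ℂ) (c : N ≃ₐ[K] N), IsConj φ c → (sgn w c = -1 ↔ ρ φ ∈ S) := by
    intro φ c hφ
    have h1 := hρ φ c hφ
    have h2 := hα (ρ φ) h1
    have h3 : (φ (w * w)).im = 0 := by
      rw [hρw, ← Complex.conj_eq_iff_im]
      exact RingHom.congr_fun h1 α
    constructor
    · intro h
      by_contra hcon
      have h4 := h2.2 hcon
      rw [← hρw] at h4
      rw [sgn_eq_neg] at h
      exact h (sqrt_pos hφ h3 h4)
    · intro h
      have h4 := h2.1 h
      rw [← hρw] at h4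
      rw [sgn_eq_neg, sqrt_neg hφ h3 h4]
      intro h5
      have h6 : w = 0 := self_eq_neg.mp h5.symm
      rw [h6] at h4
      simp at h4
  have hres : ∀ (φ : N →+* ℂ), ρ φ ∈ S → φ.comp (algebraMap K N) ∈ Y ∧
      ρ φ = ComplexEmbedding.lift L₀ (φ.comp (algebraMap K N)) := by
    rintro φ ⟨κ, hκ, h⟩
    have h1 : φ.comp (algebraMap K N) = κ := by
      rw [← hρK, h, ComplexEmbedding.lift_comp_algebraMap]
    rw [h1]
    exact ⟨hκ, h⟩
  have hφσ : ∀ (φ : N →+* ℂ) (σ : N ≃ₐ[K] N),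
      (φ.comp (σ : N →+* N)).comp (algebraMap K N) = φ.comp (algebraMap K N) := by
    intro φ σ
    ext x
    change φ (σ (algebraMap K N x)) = _
    rw [AlgEquiv.commutes]
    rfl
  obtain ⟨η, hη, hηX, hrel⟩ := tower k (N ≃ₐ[K] N) (CC K N) (fun x hx g => CC_conj hx g) s₀ hs₀ hX₀
    ψ' (fun g => hψ _) (fun x hx => hψC _ (CC_res hx)) (sgn w)
    (fun a b ha hb => sgn_mul (pm_of_sq (hkerα a ha)) (pm_of_sq (hkerα b hb)))
    (fun a _ => sgn_sg w a) (by
      rintro c ⟨φ, hφ⟩ σ τ hσ hτ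
      have h1 := (hres _ ((key _ _ (hφ.comp σ)).mp hσ)).2
      have h2 := (hres _ ((key _ _ (hφ.comp τ)).mp hτ)).2
      rw [hφσ] at h1 h2
      have h3 := h1.trans h2.symm
      have h4 : ψ' (τ⁻¹ * σ) = 1 := by
        change ψ (π (τ⁻¹ * σ)) = 1
        rw [hker]
        intro x
        have h5 : φ (σ (algebraMap L N (x : L))) = φ (τ (algebraMap L N (x : L))) :=
          RingHom.congr_fun h3 x
        apply (algebraMap L N).injective
        rw [hπ]
        change τ⁻¹ (σ (algebraMap L N (x : L))) = _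
        rw [φ.injective h5]
        change (τ⁻¹ * τ) _ = _
        rw [inv_mul_cancel]
        rfl
      rw [map_mul, map_inv, inv_mul_eq_one] at h4
      exact h4.symm)
  refine ⟨η, hη, fun φ c hφ => ?_, hrel⟩
  rw [hηX c ⟨φ, hφ⟩]
  constructor
  · rintro ⟨σ, hσ⟩
    have h1 := (hres _ ((key _ _ (hφ.comp σ)).mp hσ)).1
    rwa [hφσ] at h1
  · intro hY
    let κ : K →+* ℂ := φ.comp (algebraMap K N)
    let s : L₀ →+* ℂ := ComplexEmbedding.lift L₀ κ
    let sL : L →+* ℂ := ComplexEmbedding.lift L s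
    let sN : N →+* ℂ := ComplexEmbedding.lift N sL
    have h1 : ρ sN = s := by
      change (sN.comp (algebraMap L N)).comp (algebraMap L₀ L) = s
      rw [ComplexEmbedding.lift_comp_algebraMap, ComplexEmbedding.lift_comp_algebraMap]
    have h2 : φ.comp (algebraMap K N) = sN.comp (algebraMap K N) := by
      rw [← hρK sN, h1, ComplexEmbedding.lift_comp_algebraMap]
    obtain ⟨σ, hσ⟩ := ComplexEmbedding.exists_comp_symm_eq_of_comp_eq (k := K) φ sN h2
    refine ⟨σ.symm, (key _ _ (hφ.comp σ.symm)).mpr ?_⟩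
    have h3 : (φ.comp ((σ.symm : N ≃ₐ[K] N) : N →+* N)) = sN := hσ
    rw [h3, h1]
    exact ⟨κ, hY, rfl⟩

/-- an element of the real subfield which is positive at a single real embedding -/
lemma exists_single {φ : L →+* ℂ} {c : L ≃ₐ[K] L} (hφ : IsConj φ c) :
    ∃ α : L, c α = α ∧ 0 < (φ α).re ∧ ∀ g : L ≃ₐ[K] L, g * c = c * g → 0 ≤ (φ (g α)).re →
      g = 1 ∨ g = c := by
  classical
  have hfin : FiniteDimensional K L := Module.Finite.of_restrictScalars_finite ℚ K L
  let R : IntermediateField K L := IntermediateField.fixedField (Subgroup.zpowers c)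
  have hR : NumberField R := inferInstance
  let φR : R →+* ℂ := φ.comp (algebraMap R L)
  obtain ⟨α, hα⟩ := exists_sign R {φR}ᶜ
  have hcR : ∀ x : R, c x = x := fun x => x.2 ⟨c, Subgroup.mem_zpowers c⟩
  have hreal : ∀ g : L ≃ₐ[K] L, g * c = c * g →
      IsReal ((φ.comp (g : L →+* L)).comp (algebraMap R L)) := by
    intro g hg
    ext x
    change star (φ (g (x : L))) = φ (g (x : L))
    rw [← hφ.eq]
    have h1 : c (g (x : L)) = (c * g) (x : L) := rfl
    rw [h1, ← hg]
    change φ (g (c (x : L))) = _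
    rw [hcR]
  refine ⟨α, hcR α, ?_, fun g hg hpos => ?_⟩
  · have h1 : IsReal φR := hreal 1 (by rw [one_mul, mul_one])
    exact (hα φR h1).2 (by simp)
  · have h1 := hα _ (hreal g hg)
    have h2 : (φ.comp (g : L →+* L)).comp (algebraMap R L) = φR := by
      by_contra hcon
      have h3 := h1.1 hcon
      change (φ (g (α : L))).re < 0 at h3
      linarith
    have h3 : g ∈ R.fixingSubgroup := by
      rw [IntermediateField.mem_fixingSubgroup_iff]
      intro x hx
      exact φ.injective (RingHom.congr_fun h2 ⟨x, hx⟩)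
    rw [IntermediateField.fixingSubgroup_fixedField] at h3
    obtain ⟨n, hn⟩ := Subgroup.mem_zpowers_iff.mp h3
    have h4 : c * c = 1 := isConj_sq hφ
    rcases Int.even_or_odd' n with ⟨l, rfl | rfl⟩
    · left
      have : c ^ (2 : ℤ) = 1 := by
        have := pow_two c
        rw [h4] at this
        exact_mod_cast this
      rw [← hn, zpow_mul, this, one_zpow]
    · right
      have : c ^ (2 : ℤ) = 1 := by
        have := pow_two c
        rw [h4] at this
        exact_mod_cast this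
      rw [← hn, zpow_add, zpow_mul, this, one_zpow, one_mul, zpow_one]

/-- **The extension in which the centralisers of complex conjugations become small.** -/
theorem exists_comm (K L : Type) [Field K] [NumberField K] [Field L] [NumberField L] [Algebra K L]
    [IsGalois K L] :
    ∃ (N : Type) (_ : Field N) (_ : NumberField N) (_ : Algebra K N) (_ : Algebra L N)
      (_ : IsScalarTower K L N) (_ : IsGalois K N),
      (∃ j : N, j * j = -1) ∧
      ∀ c ∈ CC K N, ∀ g : N ≃ₐ[K] N, g * c = c * g →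
        AlgEquiv.restrictNormalHom L g = 1 ∨
          AlgEquiv.restrictNormalHom L g = AlgEquiv.restrictNormalHom L c := by
  classical
  have hfin : FiniteDimensional K L := Module.Finite.of_restrictScalars_finite ℚ K L
  let A : (L →+* ℂ) × (L ≃ₐ[K] L) → L := fun z =>
    if h : IsConj z.1 z.2 then (exists_single h).choose else 0
  obtain ⟨N, i1, i2, i3, i4, i5, i6, hN⟩ := exists_ext K L (insert (-1) (Finset.univ.image A))
  refine ⟨N, i1, i2, i3, i4, i5, i6, ?_, ?_⟩
  · obtain ⟨j, hj⟩ := hN (-1) (Finset.mem_insert_self _ _)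
    rw [map_neg, map_one] at hj
    exact ⟨j, hj⟩
  rintro c ⟨φ, hφ⟩ g hg
  let π : (N ≃ₐ[K] N) →* (L ≃ₐ[K] L) := AlgEquiv.restrictNormalHom L
  have hπ : ∀ (g : N ≃ₐ[K] N) (x : L), algebraMap L N (π g x) = g (algebraMap L N x) :=
    fun g x => res_apply g x
  have hφL : IsConj (φ.comp (algebraMap L N)) (π c) := isConj_res hφ
  let z : (L →+* ℂ) × (L ≃ₐ[K] L) := (φ.comp (algebraMap L N), π c)
  have hAz : A z = (exists_single hφL).choose := dif_pos hφL
  obtain ⟨h1, h2, h3⟩ := (exists_single hφL).choose_spec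
  rw [← hAz] at h1 h2 h3
  obtain ⟨w, hw⟩ := hN (A z) (Finset.mem_insert_of_mem (Finset.mem_image_of_mem _
    (Finset.mem_univ _)))
  apply h3 (π g)
  · rw [← map_mul, hg, map_mul]
  have h4 : (φ (w * w)).im = 0 := by
    rw [hw]
    exact (isConj_fix hφL).mp h1
  have h5 : c w = w := sqrt_pos hφ h4 (by rw [hw]; exact h2)
  have h6 : c (g w) = g w := by
    change (c * g) w = _
    rw [← hg]
    change g (c w) = _
    rw [h5]
  have h7 : (φ (g w)).im = 0 := (isConj_fix hφ).mp h6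
  change 0 ≤ (φ (algebraMap L N (π g (A z)))).re
  rw [hπ, ← hw, map_mul, map_mul, Complex.mul_re, h7]
  nlinarith [mul_self_nonneg (φ (g w)).re]

/-- **The extension for the odd part of a linear character.** -/
theorem exists_oddpart (ψ ψ₂ : (L ≃ₐ[K] L) →* ℂˣ) {m : ℕ} (hm : Odd m)
    (hψ : ∀ g, (ψ g * (ψ₂ g)⁻¹) ^ m = 1) :
    ∃ (N : Type) (_ : Field N) (_ : NumberField N) (_ : Algebra K N) (_ : Algebra L N)
      (_ : IsScalarTower K L N) (_ : IsGalois K N),
      lc (ψ.comp (AlgEquiv.restrictNormalHom L)) - lc (ψ₂.comp (AlgEquiv.restrictNormalHom L))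
        ∈ JJ (CC K N) := by
  classical
  obtain ⟨N, i1, i2, i3, i4, i5, i6, ⟨j, hj⟩, hN⟩ := exists_comm K L
  refine ⟨N, i1, i2, i3, i4, i5, i6, ?_⟩
  have hfinN : FiniteDimensional K N := Module.Finite.of_restrictScalars_finite ℚ K N
  let π : (N ≃ₐ[K] N) →* (L ≃ₐ[K] L) := AlgEquiv.restrictNormalHom L
  apply sol_JJ
  rintro H hH ⟨c, hc, hcH⟩ g hg
  let θ : (L ≃ₐ[K] L) →* ℂˣ := ψ * ψ₂⁻¹
  let χ : H →* ℂˣ := θ.comp (π.comp H.subtype)
  have hcc : c * c = 1 := by
    obtain ⟨φ, hφ⟩ := hc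
    exact isConj_sq hφ
  have hc1 : c ≠ 1 := by
    obtain ⟨φ, hφ⟩ := hc
    intro h
    have h1 : c j = - j := by
      refine sqrt_neg hφ ?_ ?_
      · rw [hj, map_neg, map_one]; simp
      · rw [hj, map_neg, map_one]; simp
    rw [h] at h1
    have h3 : j = 0 := self_eq_neg.mp h1
    rw [h3, mul_zero] at hj
    exact one_ne_zero (neg_eq_zero.mp hj.symm)
  have hθ : ∀ g, θ g ^ m = 1 := fun g => hψ g
  have h1 := hyper_odd hH (c := ⟨c, hcH⟩) (Subtype.ext hcc) (fun h => hc1 (congrArg Subtype.val h))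
    χ hm (fun h => hθ _) (by
      intro h hcom
      have h2 : (h : N ≃ₐ[K] N) * c = c * h := congrArg Subtype.val hcom
      have h3 : (π h) ^ 2 = 1 := by
        rcases hN c hc h h2 with h4 | h4
        · change π h = 1 at h4
          rw [h4, one_pow]
        · change π h = π c at h4
          rw [h4, ← map_pow, pow_two, hcc, map_one]
      refine unit_one (hθ _) (b := 2) ?_ (Nat.coprime_two_right.mpr hm)
      change θ (π h) ^ 2 = 1
      rw [← map_pow, h3, map_one]) ⟨g, hg⟩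
  have h2 : ψ (π g) * (ψ₂ (π g))⁻¹ = 1 := h1
  change ψ (π g) = ψ₂ (π g)
  exact mul_inv_eq_one.mp h2

end

end Pool.Agent.K4H74.ST
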