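import Mathlib
import Pool.Agent.K4H74.ST.Ext
import Pool.Agent.R389.Sol
import Pool.Agent.R389.Del

/-!
# Inductive invariants of Artin characters
-/

set_option autoImplicit false
set_option linter.unusedSectionVars false

namespace Pool.Agent.K4H74.ST

open NumberField NumberField.ComplexEmbedding Pool.Agent.R389

/-- `χ` is the character of a finite-dimensional complex representation of `G` -/
def IsChar {G : Type} [Group G] (χ : G → ℂ) : Prop :=
  ∃ (V : Type) (_ : AddCommGroup V) (_ : Module ℂ V) (_ : FiniteDimensional ℂ V)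
    (ρ : Representation ℂ G V), χ = ρ.character

/-- The character of `Gal(L/K)` induced from the character `χ` of `Gal(L/F)`, for `K ⊆ F ⊆ L`. -/
noncomputable def indChar (K F L : Type) [Field K] [Field F] [Field L] [Algebra K F] [Algebra F L]
    [Algebra K L] [IsScalarTower K F L] (χ : (L ≃ₐ[F] L) → ℂ) (g : L ≃ₐ[K] L) : ℂ :=
  (Nat.card (L ≃ₐ[F] L) : ℂ)⁻¹ *
    ∑ᶠ (x : L ≃ₐ[K] L) (h : L ≃ₐ[F] L) (_ : h.restrictScalars K = x⁻¹ * g * x), χ h

/-- A rule which attaches to every character of the Galois group of every finite Galois extension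
`L/K` of number fields an element of the abelian group `M` (written multiplicatively), such that
sums go to products and inflation and induction do not change the value. -/
structure ArtinInvariant (M : Type) [CommGroup M] where
  /-- the value -/
  val : ∀ (K L : Type) [Field K] [NumberField K] [Field L] [NumberField L] [Algebra K L]
    [IsGalois K L], ((L ≃ₐ[K] L) → ℂ) → M
  /-- sums of characters -/
  val_add : ∀ (K L : Type) [Field K] [NumberField K] [Field L] [NumberField L] [Algebra K L]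
    [IsGalois K L] (χ χ' : (L ≃ₐ[K] L) → ℂ), IsChar χ → IsChar χ' →
    val K L (χ + χ') = val K L χ * val K L χ'
  /-- inflation -/
  val_infl : ∀ (K L N : Type) [Field K] [NumberField K] [Field L] [NumberField L] [Field N]
    [NumberField N] [Algebra K L] [IsGalois K L] [Algebra K N] [IsGalois K N] [Algebra L N]
    [IsScalarTower K L N] (χ : (L ≃ₐ[K] L) → ℂ), IsChar χ →
    val K N (fun g => χ (AlgEquiv.restrictNormalHom L g)) = val K L χ
  /-- induction -/
  val_ind : ∀ (K F L : Type) [Field K] [NumberField K] [Field F] [NumberField F] [Field L]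
    [NumberField L] [Algebra K F] [Algebra F L] [Algebra K L] [IsScalarTower K F L] [IsGalois K L]
    [IsGalois F L] (χ : (L ≃ₐ[F] L) → ℂ), IsChar χ →
    val K L (indChar K F L χ) = val F L χ

section chars

variable {G : Type} [Group G]

lemma IsChar.add {χ χ' : G → ℂ} (h : IsChar χ) (h' : IsChar χ') : IsChar (χ + χ') := by
  obtain ⟨V, _, _, _, ρ, rfl⟩ := h
  obtain ⟨V', _, _, _, ρ', rfl⟩ := h'
  let σ : Representation ℂ G (V × V') :=
    { toFun := fun g => LinearMap.prodMap (ρ g) (ρ' g)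
      map_one' := by
        rw [map_one, map_one]
        rfl
      map_mul' := by
        intro a b
        rw [map_mul, map_mul]
        rfl }
  refine ⟨V × V', inferInstance, inferInstance, inferInstance, σ, ?_⟩
  funext g
  change LinearMap.trace ℂ V (ρ g) + LinearMap.trace ℂ V' (ρ' g)
    = LinearMap.trace ℂ (V × V') (LinearMap.prodMap (ρ g) (ρ' g))
  rw [LinearMap.trace_prodMap']

lemma IsChar.zero : IsChar (0 : G → ℂ) := by
  refine ⟨Fin 0 → ℂ, inferInstance, inferInstance, inferInstance, 1, ?_⟩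
  funext g
  change (0 : ℂ) = LinearMap.trace ℂ (Fin 0 → ℂ) (1 : (Fin 0 → ℂ) →ₗ[ℂ] (Fin 0 → ℂ))
  rw [LinearMap.trace_one]
  simp

lemma IsChar.lc (ψ : G →* ℂˣ) : IsChar (lc ψ) :=
  ⟨ℂ, inferInstance, inferInstance, inferInstance, Pool.Agent.H541R3.ART.linRep ψ, by
    funext g
    exact (Pool.Agent.H541R3.ART.linRep_char ψ g).symm⟩

lemma IsChar.virt [Finite G] {χ : G → ℂ} (h : IsChar χ) : Pool.Agent.W446.AS.Virt χ := by
  obtain ⟨V, _, _, _, ρ, rfl⟩ := h
  have h1 := char_memP _ ρ rfl
  have h2 : AddSubmonoid.closure (Pool.Agent.H541R3.ART.Irr G)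
      ≤ (AddSubgroup.closure (Pool.Agent.H541R3.ART.Irr G)).toAddSubmonoid := by
    rw [AddSubmonoid.closure_le]
    exact AddSubgroup.subset_closure
  exact h2 h1

end chars

section inv

variable {M : Type} [CommGroup M] (A : ArtinInvariant M)

variable (K L : Type) [Field K] [NumberField K] [Field L] [NumberField L] [Algebra K L]
  [IsGalois K L]

lemma val_zero : A.val K L 0 = 1 := by
  have h := A.val_add K L 0 0 IsChar.zero IsChar.zero
  rw [add_zero] at h
  exact (mul_eq_left.mp h.symm)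

/-- values of virtual characters -/
def Val (f : (L ≃ₐ[K] L) → ℂ) (v : M) : Prop :=
  ∃ χ χ' : (L ≃ₐ[K] L) → ℂ, IsChar χ ∧ IsChar χ' ∧ f = χ - χ' ∧ v = A.val K L χ / A.val K L χ'

variable {K L}

lemma Val.unique {f : (L ≃ₐ[K] L) → ℂ} {v v' : M} (h : Val A K L f v) (h' : Val A K L f v') :
    v = v' := by
  obtain ⟨a, b, ha, hb, rfl, rfl⟩ := h
  obtain ⟨a', b', ha', hb', h1, rfl⟩ := h'
  have h2 : a + b' = a' + b := by
    have := sub_eq_sub_iff_add_eq_add.mp h1
    exact this
  have h3 := A.val_add K L a b' ha hb'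
  rw [h2, A.val_add K L a' b ha' hb] at h3
  rw [div_eq_div_iff_mul_eq_mul]
  exact h3.symm

lemma Val.add {f f' : (L ≃ₐ[K] L) → ℂ} {v v' : M} (h : Val A K L f v) (h' : Val A K L f' v') :
    Val A K L (f + f') (v * v') := by
  obtain ⟨a, b, ha, hb, rfl, rfl⟩ := h
  obtain ⟨a', b', ha', hb', rfl, rfl⟩ := h'
  refine ⟨a + a', b + b', ha.add ha', hb.add hb', by abel, ?_⟩
  rw [A.val_add K L _ _ ha ha', A.val_add K L _ _ hb hb', div_mul_div_comm]

lemma Val.neg {f : (L ≃ₐ[K] L) → ℂ} {v : M} (h : Val A K L f v) : Val A K L (-f) v⁻¹ := by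
  obtain ⟨a, b, ha, hb, rfl, rfl⟩ := h
  exact ⟨b, a, hb, ha, by abel, by rw [inv_div]⟩

lemma Val.of_char {χ : (L ≃ₐ[K] L) → ℂ} (h : IsChar χ) : Val A K L χ (A.val K L χ) :=
  ⟨χ, 0, h, IsChar.zero, by rw [sub_zero], by rw [val_zero, div_one]⟩

lemma Val.zero : Val A K L 0 1 := by
  have h := Val.of_char A (K := K) (L := L) IsChar.zero
  rwa [val_zero] at h

/-- the virtual characters whose value lies in a subgroup -/
def TT (P : Subgroup M) : AddSubgroup ((L ≃ₐ[K] L) → ℂ) where
  carrier := {f | ∃ v ∈ P, Val A K L f v}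
  zero_mem' := ⟨1, one_mem P, Val.zero A⟩
  add_mem' := by
    rintro a b ⟨v, hv, h⟩ ⟨v', hv', h'⟩
    exact ⟨v * v', mul_mem hv hv', h.add A h'⟩
  neg_mem' := by
    rintro a ⟨v, hv, h⟩
    exact ⟨v⁻¹, inv_mem hv, h.neg A⟩

lemma mem_TT_char {P : Subgroup M} {χ : (L ≃ₐ[K] L) → ℂ} (h : IsChar χ) :
    χ ∈ TT A (K := K) (L := L) P ↔ A.val K L χ ∈ P := by
  constructor
  · rintro ⟨v, hv, h'⟩
    rwa [← h'.unique A (Val.of_char A h)]
  · intro hv
    exact ⟨_, hv, Val.of_char A h⟩

lemma val_eq_of_sub {χ χ' : (L ≃ₐ[K] L) → ℂ} (h : IsChar χ) (h' : IsChar χ')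
    (hs : χ - χ' ∈ TT A (K := K) (L := L) ⊥) : A.val K L χ = A.val K L χ' := by
  obtain ⟨v, hv, h1⟩ := hs
  rw [Subgroup.mem_bot] at hv
  subst hv
  have h2 := h1.unique A ⟨χ, χ', h, h', rfl, rfl⟩
  exact (div_eq_one.mp h2.symm)

end inv

section fixed

variable {K L : Type} [Field K] [NumberField K] [Field L] [NumberField L] [Algebra K L]
  [IsGalois K L]

/-- induction in terms of subgroups -/
lemma ind_fixed (H : Subgroup (L ≃ₐ[K] L)) (f : H → ℂ) :
    ind H f = indChar K (IntermediateField.fixedField H) L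
      (fun g => f ((IntermediateField.subgroupEquivAlgEquiv H).symm g)) := by
  classical
  have hfin : FiniteDimensional K L := Module.Finite.of_restrictScalars_finite ℚ K L
  let F := IntermediateField.fixedField H
  let e : H ≃* (L ≃ₐ[F] L) := IntermediateField.subgroupEquivAlgEquiv H
  have he : ∀ h : H, (e h).restrictScalars K = (h : L ≃ₐ[K] L) := by
    intro h
    ext x
    rfl
  have hc : Nat.card H = Nat.card (L ≃ₐ[F] L) := Nat.card_congr e.toEquiv
  funext g
  rw [ind, indChar, hc]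
  congr 1
  refine finsum_congr fun x => ?_
  by_cases hx : x⁻¹ * g * x ∈ H
  · rw [ext_mem _ _ hx]
    rw [finsum_eq_single _ (e ⟨_, hx⟩)]
    · rw [finsum_eq_single _ (he ⟨_, hx⟩)]
      · change _ = f (e.symm (e ⟨_, hx⟩))
        rw [MulEquiv.symm_apply_apply]
      · intro h1 h2
        exact absurd rfl h2
    · intro h hh
      refine @finsum_of_isEmpty _ _ _ ⟨fun h1 => ?_⟩ _
      apply hh
      apply e.symm.injective
      rw [MulEquiv.symm_apply_apply]
      apply Subtype.ext
      have h2 := he (e.symm h)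
      rw [MulEquiv.apply_symm_apply] at h2
      rw [← h2, h1]
  · rw [ext_not _ _ hx]
    symm
    apply finsum_eq_zero_of_forall_eq_zero
    intro h
    refine @finsum_of_isEmpty _ _ _ ⟨fun h1 => ?_⟩ _
    apply hx
    rw [← h1]
    have h2 := he (e.symm h)
    rw [MulEquiv.apply_symm_apply] at h2
    rw [h2]
    exact (e.symm h).2

lemma ind_fixed_lin (H : Subgroup (L ≃ₐ[K] L)) (ψ : H →* ℂˣ) :
    ∃ ψ' : (L ≃ₐ[IntermediateField.fixedField H] L) →* ℂˣ,
      ind H (fun h => ((ψ h : ℂˣ) : ℂ)) = indChar K (IntermediateField.fixedField H) L (lc ψ') :=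
  ⟨ψ.comp (IntermediateField.subgroupEquivAlgEquiv H).symm.toMonoidHom, ind_fixed H _⟩

lemma fixed_complex (H : Subgroup (L ≃ₐ[K] L)) (hH : ∀ c ∈ CC K L, c ∉ H) :
    IsTotallyComplex (IntermediateField.fixedField H) := by
  have hfin : FiniteDimensional K L := Module.Finite.of_restrictScalars_finite ℚ K L
  let F := IntermediateField.fixedField H
  refine ⟨fun v => ?_⟩
  rw [← InfinitePlace.not_isReal_iff_isComplex]
  intro hv
  have h1 : IsReal v.embedding := InfinitePlace.isReal_iff.mp hv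
  let φ : L →+* ℂ := ComplexEmbedding.lift L v.embedding
  have h2 : φ.comp (algebraMap F L) = v.embedding := ComplexEmbedding.lift_comp_algebraMap L _
  obtain ⟨c, hc⟩ := exists_conj (K := F) (φ := φ) (by rw [h2]; exact h1)
  let e : H ≃* (L ≃ₐ[F] L) := IntermediateField.subgroupEquivAlgEquiv H
  refine hH ((e.symm c : H) : L ≃ₐ[K] L) ⟨φ, ?_⟩ (e.symm c).2
  ext x
  have h3 := hc.eq x
  have h4 : ((e.symm c : H) : L ≃ₐ[K] L) x = c x := by
    have h5 : ∀ h : H, (e h) x = (h : L ≃ₐ[K] L) x := fun h => rfl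
    rw [← h5, MulEquiv.apply_symm_apply]
  change star (φ x) = φ (((e.symm c : H) : L ≃ₐ[K] L) x)
  rw [h4, h3]

end fixed

end Pool.Agent.K4H74.ST
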