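import Mathlib
import Pool.Agent.K4H74.ST.Inv

/-!
# Inductive invariants which are trivial over totally complex fields
-/

set_option autoImplicit false
set_option linter.unusedSectionVars false

namespace Pool.Agent.K4H74.ST

open NumberField NumberField.ComplexEmbedding Pool.Agent.R389

section chars

variable {G : Type} [Group G] [Finite G]

open Pool.Agent.H541R3.ART in
lemma IsChar.of_decomp {f : G → ℂ} {m : (G → ℂ) → ℕ} (h : IsDecomp f m) : IsChar f := by
  classical
  have h1 : f = ∑ χ ∈ irrF G, m χ • χ := by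
    funext g
    rw [h g, finsum_irr (fun χ => (m χ : ℂ) * χ g), Finset.sum_apply]
    refine Finset.sum_congr rfl fun χ _ => ?_
    rw [Pi.smul_apply, nsmul_eq_mul]
  have h2 : ∀ χ ∈ irrF G, IsChar χ := by
    intro χ hχ
    obtain ⟨n, ρ, -, rfl⟩ := mem_irrF.mp hχ
    exact ⟨Fin n → ℂ, inferInstance, inferInstance, inferInstance, ρ, rfl⟩
  have h3 : ∀ (χ : G → ℂ) (n : ℕ), IsChar χ → IsChar (n • χ) := by
    intro χ n hχ
    induction n with
    | zero => rw [zero_smul]; exact IsChar.zero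
    | succ n ih => rw [succ_nsmul]; exact ih.add hχ
  rw [h1]
  exact Finset.sum_induction _ IsChar (fun a b ha hb => ha.add hb) IsChar.zero
    (fun χ hχ => h3 χ _ (h2 χ hχ))

lemma IsChar.ind_lin (U : Subgroup G) (ψ : U →* ℂˣ) :
    IsChar (ind U (fun h => ((ψ h : ℂˣ) : ℂ))) := by
  obtain ⟨m, hm⟩ := ind_isDecomp U ψ
  exact IsChar.of_decomp hm

end chars

section red

variable (K L : Type) [Field K] [NumberField K] [Field L] [NumberField L] [Algebra K L]
  [IsGalois K L]

/-- a linear character comes from a cyclic extension, on which it is faithful -/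
lemma lin_red (ψ : (L ≃ₐ[K] L) →* ℂˣ) :
    ∃ (E : Type) (_ : Field E) (_ : NumberField E) (_ : Algebra K E) (_ : Algebra E L)
      (_ : IsScalarTower K E L) (_ : IsGalois K E) (θ : (E ≃ₐ[K] E) →* ℂˣ),
      Function.Injective θ ∧ ∀ g, θ (AlgEquiv.restrictNormalHom E g) = ψ g := by
  classical
  have hfin : FiniteDimensional K L := Module.Finite.of_restrictScalars_finite ℚ K L
  let E : IntermediateField K L := IntermediateField.fixedField ψ.ker
  have hE : IsGalois K E := IsGalois.of_fixedField_normal_subgroup ψ.ker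
  let π : (L ≃ₐ[K] L) →* (E ≃ₐ[K] E) := AlgEquiv.restrictNormalHom E
  have hπ : Function.Surjective π := AlgEquiv.restrictNormalHom_surjective L
  have hker : ∀ g : L ≃ₐ[K] L, π g = 1 ↔ ψ g = 1 := by
    intro g
    constructor
    · intro h
      have h1 : g ∈ E.fixingSubgroup := by
        rw [IntermediateField.mem_fixingSubgroup_iff]
        intro x hx
        have h2 := res_apply (L := E) g ⟨x, hx⟩
        change algebraMap E L (π g ⟨x, hx⟩) = _ at h2
        rw [h] at h2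
        exact h2.symm
      rw [IntermediateField.fixingSubgroup_fixedField] at h1
      exact h1
    · intro h
      ext x
      have h2 := res_apply (L := E) g x
      change algebraMap E L (π g x) = _ at h2
      change ((π g x : E) : L) = (x : L)
      exact h2.trans (x.2 ⟨g, h⟩)
  have hle : π.ker ≤ ψ.ker := fun g hg => (hker g).mp hg
  let θ := π.liftOfSurjective hπ ⟨ψ, hle⟩
  have hθ : ∀ g, θ (π g) = ψ g := fun g => MonoidHom.liftOfRightInverse_comp_apply _ _ _ ⟨ψ, hle⟩ g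
  refine ⟨E, inferInstance, inferInstance, inferInstance, inferInstance, inferInstance, hE, θ, ?_,
    hθ⟩
  rw [injective_iff_map_eq_one]
  intro a ha
  obtain ⟨g, rfl⟩ := hπ a
  rw [hθ] at ha
  exact (hker g).mpr ha

end red

section twist

variable {K L : Type} [Field K] [NumberField K] [Field L] [NumberField L] [Algebra K L]
  [IsGalois K L]

/-- **Twisting by sign characters.** -/
theorem exists_twist (ψ : (L ≃ₐ[K] L) →* ℂˣ) (k : ℕ) (hψ : ∀ g, ψ g ^ (2 ^ k) = 1)
    (Y : Set (K →+* ℂ)) :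
    ∃ (N : Type) (_ : Field N) (_ : NumberField N) (_ : Algebra K N) (_ : Algebra L N)
      (_ : IsScalarTower K L N) (_ : IsGalois K N),
      ∃ η ε : (N ≃ₐ[K] N) →* ℂˣ, Sg η ∧ Sg ε ∧
        (∀ (φ : N →+* ℂ) (c : N ≃ₐ[K] N), IsConj φ c →
          (η c = -1 ↔ φ.comp (algebraMap K N) ∈ Y)) ∧
        lc (ψ.comp (AlgEquiv.restrictNormalHom L) * η) - lc (ψ.comp (AlgEquiv.restrictNormalHom L))
          - lc (η * ε) + lc ε ∈ JJ (CC K N) := by
  classical
  let Y₁ : Set (K →+* ℂ) := {κ | ∃ (φ : L →+* ℂ) (c : L ≃ₐ[K] L), IsConj φ c ∧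
    φ.comp (algebraMap K L) = κ ∧ ψ c = -1}
  obtain ⟨a, ha⟩ := exists_sign K Y₁
  obtain ⟨N₁, i1, i2, i3, i4, i5, i6, hN₁⟩ := exists_ext K L {algebraMap K L a}
  obtain ⟨w, hw⟩ := hN₁ (algebraMap K L a) (Finset.mem_singleton_self _)
  rw [← IsScalarTower.algebraMap_apply] at hw
  have hwf : ∀ g : N₁ ≃ₐ[K] N₁, g (w * w) = w * w := fun g => by rw [hw, AlgEquiv.commutes]
  let ε₁ : (N₁ ≃ₐ[K] N₁) →* ℂˣ := sgnHom w hwf
  have hε₁ : Sg ε₁ := sgnHom_sg w hwf
  let π₁ : (N₁ ≃ₐ[K] N₁) →* (L ≃ₐ[K] L) := AlgEquiv.restrictNormalHom L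
  have hψsq : ∀ (φ : L →+* ℂ) (c : L ≃ₐ[K] L), IsConj φ c → ψ c = 1 ∨ ψ c = -1 := by
    intro φ c hc
    have h1 : ψ c * ψ c = 1 := by rw [← map_mul, isConj_sq hc, map_one]
    have h2 : ((ψ c : ℂˣ) : ℂ) * ((ψ c : ℂˣ) : ℂ) = 1 := by
      rw [← Units.val_mul, h1, Units.val_one]
    rcases mul_self_eq_one_iff.mp h2 with h3 | h3
    · left; exact Units.ext h3
    · right; exact Units.ext (by rw [h3]; simp)
  have hεψ : ∀ c ∈ CC K N₁, ε₁ c = ψ (π₁ c) := by
    rintro c ⟨φ, hφ⟩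
    have hφL : IsConj (φ.comp (algebraMap L N₁)) (π₁ c) := isConj_res hφ
    let κ : K →+* ℂ := φ.comp (algebraMap K N₁)
    have hκ : (φ.comp (algebraMap L N₁)).comp (algebraMap K L) = κ := by
      ext x
      change φ (algebraMap L N₁ (algebraMap K L x)) = φ (algebraMap K N₁ x)
      rw [← IsScalarTower.algebraMap_apply K L N₁]
    have hκr : IsReal κ := hφ.isReal_comp
    have h1 := ha κ hκr
    have h2 : φ (w * w) = κ a := by rw [hw]; rfl
    have h3 : (φ (w * w)).im = 0 := by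
      rw [h2, ← Complex.conj_eq_iff_im]
      exact RingHom.congr_fun hκr a
    have hmem : κ ∈ Y₁ ↔ ψ (π₁ c) = -1 := by
      constructor
      · rintro ⟨φ', c', hc', hκ', hψ'⟩
        obtain ⟨σ, hσ⟩ := ComplexEmbedding.exists_comp_symm_eq_of_comp_eq (k := K)
          (φ.comp (algebraMap L N₁)) φ' (by rw [hκ, hκ'])
        have h4 := hφL.comp σ.symm
        have h5 : ((φ.comp (algebraMap L N₁)).comp ((σ.symm : L ≃ₐ[K] L) : L →+* L)) = φ' := hσ
        rw [h5] at h4
        have h6 := h4.ext hc'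
        rw [← hψ', ← h6, map_mul, map_mul, map_inv, mul_comm (ψ σ.symm)⁻¹, mul_assoc,
          inv_mul_cancel, mul_one]
      · intro h
        exact ⟨_, _, hφL, hκ, h⟩
    rcases hψsq _ _ hφL with h4 | h4
    · rw [h4]
      change sgn w c = 1
      have h5 : κ ∉ Y₁ := fun h => by
        rw [hmem, h4] at h
        exact neg_one_ne h.symm
      rw [sgn_eq_one]
      exact sqrt_pos hφ h3 (by rw [h2]; exact h1.2 h5)
    · rw [h4]
      change sgn w c = -1
      have h5 := h1.1 (hmem.mpr h4)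
      rw [← h2] at h5
      rw [sgn_eq_neg, sqrt_neg hφ h3 h5]
      intro h6
      have h7 : w = 0 := self_eq_neg.mp h6.symm
      rw [h7] at h5
      simp at h5
  let ψe : (N₁ ≃ₐ[K] N₁) →* ℂˣ := ψ.comp π₁ * ε₁
  have hψe : ∀ g, ψe g ^ (2 ^ (k + 1)) = 1 := by
    intro g
    change (ψ (π₁ g) * ε₁ g) ^ (2 ^ (k + 1)) = 1
    rw [mul_pow, pow_succ, pow_mul, hψ, one_pow, one_mul, mul_comm, pow_mul]
    rcases hε₁ g with h | h <;> rw [h] <;> simp
  have hψeC : ∀ c ∈ CC K N₁, ψe c = 1 := by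
    intro c hc
    change ψ (π₁ c) * ε₁ c = 1
    rw [← hεψ c hc]
    rcases hε₁ c with h | h <;> rw [h] <;> simp
  obtain ⟨N, j1, j2, j3, j4, j5, j6, η, hη, hηY, hrel⟩ := exists_tower ψe (k + 1) hψe hψeC Y
  let iLN : L →+* N := (algebraMap N₁ N).comp (algebraMap L N₁)
  let _ : Algebra L N := iLN.toAlgebra
  have hLN : ∀ x, algebraMap L N x = algebraMap N₁ N (algebraMap L N₁ x) := fun x => rfl
  have hKLN : IsScalarTower K L N := by
    refine IsScalarTower.of_algebraMap_eq fun x => ?_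
    rw [hLN, ← IsScalarTower.algebraMap_apply K L N₁, ← IsScalarTower.algebraMap_apply K N₁ N]
  have hres : ∀ g : N ≃ₐ[K] N, π₁ (AlgEquiv.restrictNormalHom N₁ g)
      = AlgEquiv.restrictNormalHom L g := by
    intro g
    ext x
    apply (algebraMap L N).injective
    rw [res_apply, hLN, hLN]
    have h1 := res_apply (L := L) (AlgEquiv.restrictNormalHom N₁ g) x
    change algebraMap N₁ N (algebraMap L N₁ (AlgEquiv.restrictNormalHom L
      (AlgEquiv.restrictNormalHom N₁ g) x)) = _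
    rw [h1, res_apply]
  let ε : (N ≃ₐ[K] N) →* ℂˣ := ε₁.comp (AlgEquiv.restrictNormalHom N₁)
  have hε : Sg ε := fun g => hε₁ _
  refine ⟨N, j1, j2, j3, inferInstance, hKLN, j6, η, ε, hη, hε, hηY, ?_⟩
  have h1 := tw_JJ ε hrel
  convert h1 using 1
  funext g
  have h2 : ((ε g : ℂˣ) : ℂ) * ((ε g : ℂˣ) : ℂ) = 1 := by
    rcases hε g with h | h <;> rw [h] <;> simp
  have h3 : (ψe.comp (AlgEquiv.restrictNormalHom N₁)) g
      = ψ (AlgEquiv.restrictNormalHom L g) * ε g := by
    rw [← hres]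
    rfl
  simp only [Pi.add_apply, Pi.sub_apply, lc, MonoidHom.mul_apply, Units.val_mul, MonoidHom.one_apply,
    Units.val_one, h3]
  rw [MonoidHom.comp_apply]
  linear_combination (-((ψ (AlgEquiv.restrictNormalHom L g) : ℂˣ) : ℂ) * ((η g : ℂˣ) : ℂ)
    + ((ψ (AlgEquiv.restrictNormalHom L g) : ℂˣ) : ℂ)) * h2

end twist

end Pool.Agent.K4H74.ST
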