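import Mathlib
import Pool.Agent.K4H74.ST.Main

/-!
# Inductive invariants which are trivial over totally complex fields: the main theorems
-/

set_option autoImplicit false
set_option linter.unusedSectionVars false

namespace Pool.Agent.K4H74.ST

open NumberField NumberField.ComplexEmbedding Pool.Agent.R389

variable {M : Type} [CommGroup M] (A : ArtinInvariant M)

/-- the invariant is trivial on the rational valued characters -/
def TrivRational : Prop :=
  ∀ (K L : Type) [Field K] [NumberField K] [Field L] [NumberField L] [Algebra K L] [IsGalois K L]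
    (χ : (L ≃ₐ[K] L) → ℂ), IsChar χ → (∀ g, ∃ q : ℚ, χ g = q) → A.val K L χ = 1

/-- the invariant is trivial on the faithful linear characters of the (cyclic) extensions of the
totally complex fields -/
def TrivComplex : Prop :=
  ∀ (K L : Type) [Field K] [NumberField K] [Field L] [NumberField L] [Algebra K L] [IsGalois K L],
    IsTotallyComplex K → ∀ ψ : (L ≃ₐ[K] L) →* ℂˣ, Function.Injective ψ →
      A.val K L (fun g => ((ψ g : ℂˣ) : ℂ)) = 1

/-- the invariant is trivial on the totally odd linear characters -/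
def TrivOdd : Prop :=
  ∀ (K L : Type) [Field K] [NumberField K] [Field L] [NumberField L] [Algebra K L] [IsGalois K L],
    IsTotallyReal K → ∀ ψ : (L ≃ₐ[K] L) →* ℂˣ,
      (∀ (φ : L →+* ℂ) (c : L ≃ₐ[K] L), IsConj φ c → ψ c = -1) →
      A.val K L (fun g => ((ψ g : ℂˣ) : ℂ)) = 1

/-- the invariant is trivial on the faithful linear characters of the cyclic extensions of degree
`4, 8, 16, ...` without ramification at infinity of the fields which are neither totally real nor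
totally complex -/
def TrivMixed : Prop :=
  ∀ (K L : Type) [Field K] [NumberField K] [Field L] [NumberField L] [Algebra K L] [IsGalois K L],
    ¬ IsTotallyReal K → ¬ IsTotallyComplex K →
      (∃ l : ℕ, Nat.card (L ≃ₐ[K] L) = 2 ^ (l + 2)) →
      (∀ (φ : L →+* ℂ) (c : L ≃ₐ[K] L), IsConj φ c → c = 1) →
      ∀ ψ : (L ≃ₐ[K] L) →* ℂˣ, Function.Injective ψ →
      A.val K L (fun g => ((ψ g : ℂˣ) : ℂ)) = 1

/-- the invariant is trivial on the trivial characters -/
def TrivOne : Prop :=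
  ∀ (K : Type) [Field K] [NumberField K], A.val K K (fun _ => 1) = 1

section

variable {A}

variable {K L : Type} [Field K] [NumberField K] [Field L] [NumberField L] [Algebra K L]
  [IsGalois K L]

lemma val_one {K L : Type} [Field K] [NumberField K] [Field L] [NumberField L] [Algebra K L]
    [IsGalois K L] (hR : TrivOne A) : A.val K L (lc 1) = 1 := by
  have h := A.val_infl K K L (lc 1) (IsChar.lc 1)
  have h1 : (fun g => lc (1 : (K ≃ₐ[K] K) →* ℂˣ) (AlgEquiv.restrictNormalHom K g))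
      = lc (1 : (L ≃ₐ[K] L) →* ℂˣ) := rfl
  have h2 : lc (1 : (K ≃ₐ[K] K) →* ℂˣ) = fun _ => 1 := by
    funext g
    simp [lc]
  rw [h1, h2, hR K] at h
  exact h

lemma val_sign (hR : TrivOne A) {s : (L ≃ₐ[K] L) →* ℂˣ} (hs : Sg s) :
    A.val K L (lc s) = 1 := by
  have hfin : FiniteDimensional K L := Module.Finite.of_restrictScalars_finite ℚ K L
  have hone : A.val K L (lc 1) = 1 := val_one hR
  by_cases h : ∃ t, s t = -1
  · obtain ⟨t, ht⟩ := h
    have h1 := ind_two' hs ht 1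
    have h0 : (1 : (L ≃ₐ[K] L) →* ℂˣ) * s = s := by
      ext g
      rw [MonoidHom.mul_apply, MonoidHom.one_apply, one_mul]
    rw [h0] at h1
    obtain ⟨ψ', hψ'⟩ := ind_fixed_lin s.ker (1 : s.ker →* ℂˣ)
    have h2 : ind s.ker (fun h => ((( 1 : s.ker →* ℂˣ) h : ℂˣ) : ℂ))
        = indChar K (IntermediateField.fixedField s.ker) L (lc 1) := ind_fixed s.ker _
    have h3 : ind s.ker (fun h => lc (1 : (L ≃ₐ[K] L) →* ℂˣ) h)
        = ind s.ker (fun h => ((( 1 : s.ker →* ℂˣ) h : ℂˣ) : ℂ)) := rfl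
    rw [h3, h2] at h1
    have h4 := congrArg (A.val K L) h1
    rw [A.val_ind K (IntermediateField.fixedField s.ker) L (lc 1) (IsChar.lc 1), val_one hR,
      A.val_add K L _ _ (IsChar.lc _) (IsChar.lc _), hone, one_mul] at h4
    exact h4.symm
  · push Not at h
    have h1 : s = 1 := by
      ext g
      rw [(hs g).resolve_right (h g)]
      rfl
    rw [h1, hone]

lemma val_lin_res {N : Type} [Field N] [NumberField N] [Algebra K N] [IsGalois K N] [Algebra L N]
    [IsScalarTower K L N] (ψ : (L ≃ₐ[K] L) →* ℂˣ) :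
    A.val K N (lc (ψ.comp (AlgEquiv.restrictNormalHom L))) = A.val K L (lc ψ) :=
  A.val_infl K L N (lc ψ) (IsChar.lc ψ)

/-- linear characters over totally complex fields -/
lemma val_complex (hC : TrivComplex A) (hK : IsTotallyComplex K) (ψ : (L ≃ₐ[K] L) →* ℂˣ) :
    A.val K L (lc ψ) = 1 := by
  obtain ⟨E, i1, i2, i3, i4, i5, i6, θ, hθ, hψ⟩ := lin_red K L ψ
  have h1 : ψ = θ.comp (AlgEquiv.restrictNormalHom E) := by
    ext g
    rw [← hψ]
    rfl
  have hfin : FiniteDimensional K E := Module.Finite.of_restrictScalars_finite ℚ K E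
  rw [h1, val_lin_res]
  exact hC K E hK θ hθ

lemma JJ_le (hC : TrivComplex A) : JJ (CC K L) ≤ TT A (K := K) (L := L) ⊥ := by
  rw [JJ, AddSubgroup.closure_le]
  rintro f ⟨H, ψ, hH, rfl⟩
  have hfin : FiniteDimensional K L := Module.Finite.of_restrictScalars_finite ℚ K L
  rw [SetLike.mem_coe, mem_TT_char A (IsChar.ind_lin H ψ), Subgroup.mem_bot]
  obtain ⟨ψ', hψ'⟩ := ind_fixed_lin H ψ
  rw [hψ', A.val_ind K (IntermediateField.fixedField H) L (lc ψ') (IsChar.lc ψ')]
  exact val_complex hC (fixed_complex H hH) ψ'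

/-- reduction to linear characters -/
lemma brauer_red (P : Subgroup M)
    (h : ∀ (U : Subgroup (L ≃ₐ[K] L))
      (ψ : (L ≃ₐ[IntermediateField.fixedField U] L) →* ℂˣ),
      A.val (IntermediateField.fixedField U) L (lc ψ) ∈ P)
    {χ : (L ≃ₐ[K] L) → ℂ} (hχ : IsChar χ) : A.val K L χ ∈ P := by
  have hfin : FiniteDimensional K L := Module.Finite.of_restrictScalars_finite ℚ K L
  have h1 : MonG (L ≃ₐ[K] L) ≤ TT A (K := K) (L := L) P := by
    rw [MonG, AddSubgroup.closure_le]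
    rintro f ⟨U, ψ, -, rfl⟩
    rw [SetLike.mem_coe, mem_TT_char A (IsChar.ind_lin U ψ)]
    obtain ⟨ψ', hψ'⟩ := ind_fixed_lin U ψ
    rw [hψ', A.val_ind K (IntermediateField.fixedField U) L (lc ψ') (IsChar.lc ψ')]
    exact h U ψ'
  exact (mem_TT_char A hχ).mp (h1 (virt_mem_mon hχ.virt))

/-- passing to the part of `2`-power order -/
lemma val_two_part (hC : TrivComplex A) (ψ : (L ≃ₐ[K] L) →* ℂˣ) :
    ∃ (k : ℕ) (ψ₂ : (L ≃ₐ[K] L) →* ℂˣ), (∀ g, ψ₂ g ^ (2 ^ k) = 1) ∧
      (Odd (Nat.card (L ≃ₐ[K] L)) → k = 0) ∧ A.val K L (lc ψ) = A.val K L (lc ψ₂) := by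
  have hfin : FiniteDimensional K L := Module.Finite.of_restrictScalars_finite ℚ K L
  obtain ⟨k, m, hm, hn⟩ := Nat.exists_eq_two_pow_mul_odd
    (n := Nat.card (L ≃ₐ[K] L)) Nat.card_pos.ne'
  have hcop : Nat.Coprime (2 ^ k) m := Nat.Coprime.pow_left k (Nat.coprime_two_left.mpr hm)
  obtain ⟨a, ha1, ha2⟩ := Nat.chineseRemainder hcop 1 0
  have hψ : ∀ g, ψ g ^ (2 ^ k * m) = 1 := fun g => by
    rw [← map_pow, ← hn, pow_card_eq_one', map_one]
  let ψ₂ : (L ≃ₐ[K] L) →* ℂˣ := ψ ^ a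
  have hψ₂ : ∀ g, ψ₂ g = ψ g ^ a := fun g => rfl
  refine ⟨k, ψ₂, fun g => ?_, fun h => ?_, ?_⟩
  · obtain ⟨b, hb⟩ := (Nat.modEq_zero_iff_dvd.mp ha2)
    rw [hψ₂, hb, ← pow_mul]
    have : m * b * 2 ^ k = (2 ^ k * m) * b := by ring
    rw [this, pow_mul, hψ, one_pow]
  · by_contra hk
    rw [hn] at h
    have h1 : Even (2 ^ k * m) := by
      rw [Nat.even_mul]
      left
      exact (Nat.even_pow.mpr ⟨even_two, hk⟩)
    exact (Nat.not_even_iff_odd.mpr h) h1
  · obtain ⟨N, i1, i2, i3, i4, i5, i6, hN⟩ := exists_oddpart ψ ψ₂ hm (by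
      intro g
      rw [hψ₂, mul_pow, inv_pow, mul_inv_eq_one, ← pow_mul]
      have h1 : a * m ≡ m [MOD 2 ^ k * m] := by
        have := ha1.mul_right' m
        rwa [one_mul] at this
      have h2 : a * m ≡ m [MOD orderOf (ψ g)] :=
        h1.of_dvd (orderOf_dvd_of_pow_eq_one (hψ g))
      exact (pow_eq_pow_iff_modEq.mpr h2).symm)
    rw [← val_lin_res (A := A) (N := N) ψ, ← val_lin_res (A := A) (N := N) ψ₂]
    exact val_eq_of_sub A (IsChar.lc _) (IsChar.lc _) (JJ_le hC hN)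

/-- complex conjugations over the same embedding of the base field -/
lemma conj_same (ψ : (L ≃ₐ[K] L) →* ℂˣ) {φ φ' : L →+* ℂ} {c c' : L ≃ₐ[K] L} (h : IsConj φ c)
    (h' : IsConj φ' c') (hK : φ.comp (algebraMap K L) = φ'.comp (algebraMap K L)) :
    ψ c = ψ c' := by
  obtain ⟨σ, hσ⟩ := ComplexEmbedding.exists_comp_symm_eq_of_comp_eq (k := K) φ φ' hK
  have h4 := h.comp σ.symm
  have h5 : (φ.comp ((σ.symm : L ≃ₐ[K] L) : L →+* L)) = φ' := hσ
  rw [h5] at h4
  have h6 := h4.ext h'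
  rw [← h6, map_mul, map_mul, map_inv, mul_comm (ψ σ.symm)⁻¹, mul_assoc, inv_mul_cancel, mul_one]

/-- the value does not change under twists by sign characters of an extension -/
lemma val_twist (hR : TrivOne A) (hC : TrivComplex A) (ψ : (L ≃ₐ[K] L) →* ℂˣ) (k : ℕ)
    (hψ : ∀ g, ψ g ^ (2 ^ k) = 1) (Y : Set (K →+* ℂ)) :
    ∃ (N : Type) (_ : Field N) (_ : NumberField N) (_ : Algebra K N) (_ : Algebra L N)
      (_ : IsScalarTower K L N) (_ : IsGalois K N) (η : (N ≃ₐ[K] N) →* ℂˣ), Sg η ∧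
        (∀ (φ : N →+* ℂ) (c : N ≃ₐ[K] N), IsConj φ c →
          (η c = -1 ↔ φ.comp (algebraMap K N) ∈ Y)) ∧
        A.val K L (lc ψ) = A.val K N (lc (ψ.comp (AlgEquiv.restrictNormalHom L) * η)) := by
  obtain ⟨N, i1, i2, i3, i4, i5, i6, η, ε, hη, hε, hY, hrel⟩ := exists_twist ψ k hψ Y
  refine ⟨N, i1, i2, i3, i4, i5, i6, η, hη, hY, ?_⟩
  have h1 := JJ_le hC hrel
  let ψ' : (N ≃ₐ[K] N) →* ℂˣ := ψ.comp (AlgEquiv.restrictNormalHom L)
  have h2 : lc (ψ' * η) - lc ψ' - lc (η * ε) + lc ε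
      = (lc (ψ' * η) + lc ε) - (lc ψ' + lc (η * ε)) := by abel
  change lc (ψ' * η) - lc ψ' - lc (η * ε) + lc ε ∈ _ at h1
  rw [h2] at h1
  have h3 := val_eq_of_sub A ((IsChar.lc _).add (IsChar.lc _)) ((IsChar.lc _).add (IsChar.lc _)) h1
  rw [A.val_add K N _ _ (IsChar.lc _) (IsChar.lc _), A.val_add K N _ _ (IsChar.lc _) (IsChar.lc _),
    val_sign hR hε, val_sign hR (hη.mul hε), mul_one, mul_one] at h3
  rw [← val_lin_res (A := A) (N := N) ψ]
  exact h3.symm

/-- linear characters: the square of the value -/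
lemma val_lin_sq (hR : TrivOne A) (hC : TrivComplex A) (ψ : (L ≃ₐ[K] L) →* ℂˣ) :
    A.val K L (lc ψ) ^ 2 = 1 := by
  obtain ⟨k, ψ₂, hψ₂, -, h1⟩ := val_two_part hC ψ
  obtain ⟨N, i1, i2, i3, i4, i5, i6, η, hη, hY, h2⟩ := val_twist hR hC ψ₂ k hψ₂ Set.univ
  have hodd : ∀ c ∈ CC K N, η c = -1 := by
    rintro c ⟨φ, hφ⟩
    exact (hY φ c hφ).mpr (Set.mem_univ _)
  have hfinN : FiniteDimensional K N := Module.Finite.of_restrictScalars_finite ℚ K N
  have h3 := JJ_le hC (odd_JJ hη hodd (ψ₂.comp (AlgEquiv.restrictNormalHom L)))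
  rw [mem_TT_char A ((IsChar.lc _).add (IsChar.lc _)), Subgroup.mem_bot,
    A.val_add K N _ _ (IsChar.lc _) (IsChar.lc _), ← h2, val_lin_res] at h3
  rw [h1, pow_two]
  exact h3

/-- linear characters of extensions of odd degree -/
lemma val_lin_odd (hR : TrivOne A) (hC : TrivComplex A) (ψ : (L ≃ₐ[K] L) →* ℂˣ)
    (ho : Odd (Nat.card (L ≃ₐ[K] L))) : A.val K L (lc ψ) = 1 := by
  obtain ⟨k, ψ₂, hψ₂, hk, h1⟩ := val_two_part hC ψ
  rw [h1]
  apply val_sign hR
  intro g
  left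
  have h2 := hψ₂ g
  rw [hk ho] at h2
  simpa using h2

/-- linear characters over totally real fields -/
lemma val_lin_real (hR : TrivOne A) (hC : TrivComplex A) (hO : TrivOdd A)
    (hK : IsTotallyReal K) (ψ : (L ≃ₐ[K] L) →* ℂˣ) : A.val K L (lc ψ) = 1 := by
  obtain ⟨k, ψ₂, hψ₂, -, h1⟩ := val_two_part hC ψ
  let Y : Set (K →+* ℂ) := {κ | ∃ (φ : L →+* ℂ) (c : L ≃ₐ[K] L), IsConj φ c ∧
    φ.comp (algebraMap K L) = κ ∧ ψ₂ c = 1}
  obtain ⟨N, i1, i2, i3, i4, i5, i6, η, hη, hY, h2⟩ := val_twist hR hC ψ₂ k hψ₂ Y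
  rw [h1, h2]
  refine hO K N hK _ fun φ c hφ => ?_
  have hφL : IsConj (φ.comp (algebraMap L N)) (AlgEquiv.restrictNormalHom L c) := isConj_res hφ
  have hκ : (φ.comp (algebraMap L N)).comp (algebraMap K L) = φ.comp (algebraMap K N) := by
    ext x
    change φ (algebraMap L N (algebraMap K L x)) = φ (algebraMap K N x)
    rw [← IsScalarTower.algebraMap_apply K L N]
  have h3 : ψ₂ (AlgEquiv.restrictNormalHom L c) = 1 ∨ ψ₂ (AlgEquiv.restrictNormalHom L c) = -1 := by
    have h4 : ψ₂ (AlgEquiv.restrictNormalHom L c) * ψ₂ (AlgEquiv.restrictNormalHom L c) = 1 := by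
      rw [← map_mul, isConj_sq hφL, map_one]
    have h5 : ((ψ₂ (AlgEquiv.restrictNormalHom L c) : ℂˣ) : ℂ)
        * ((ψ₂ (AlgEquiv.restrictNormalHom L c) : ℂˣ) : ℂ) = 1 := by
      rw [← Units.val_mul, h4, Units.val_one]
    rcases mul_self_eq_one_iff.mp h5 with h6 | h6
    · left; exact Units.ext h6
    · right; exact Units.ext (by rw [h6]; simp)
  have h7 : ψ₂ (AlgEquiv.restrictNormalHom L c) * η c = -1 := by
    rcases h3 with h3 | h3
    · have h8 : η c = -1 := (hY φ c hφ).mpr ⟨_, _, hφL, hκ, h3⟩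
      rw [h3, h8, one_mul]
    · have h8 : η c = 1 := by
        refine (hη c).resolve_right fun h9 => ?_
        obtain ⟨φ', c', hc', hκ', hψ'⟩ := (hY φ c hφ).mp h9
        have h10 := conj_same ψ₂ hφL hc' (by rw [hκ, hκ'])
        rw [h3, hψ'] at h10
        exact neg_one_ne h10
      rw [h3, h8, mul_one]
  rw [MonoidHom.mul_apply, MonoidHom.comp_apply, h7]

/-- linear characters over fields which are neither totally real nor totally complex -/
lemma val_lin_mixed (hR : TrivOne A) (hC : TrivComplex A) (hM : TrivMixed A)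
    (hK : ¬ IsTotallyReal K) (hK' : ¬ IsTotallyComplex K) (ψ : (L ≃ₐ[K] L) →* ℂˣ) :
    A.val K L (lc ψ) = 1 := by
  obtain ⟨k, ψ₂, hψ₂, -, h1⟩ := val_two_part hC ψ
  let Y : Set (K →+* ℂ) := {κ | ∃ (φ : L →+* ℂ) (c : L ≃ₐ[K] L), IsConj φ c ∧
    φ.comp (algebraMap K L) = κ ∧ ψ₂ c = -1}
  obtain ⟨N, i1, i2, i3, i4, i5, i6, η, hη, hY, h2⟩ := val_twist hR hC ψ₂ k hψ₂ Y
  rw [h1, h2]
  let ξ : (N ≃ₐ[K] N) →* ℂˣ := ψ₂.comp (AlgEquiv.restrictNormalHom L) * η
  have hξ : ∀ g, ξ g ^ (2 ^ (k + 1)) = 1 := by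
    intro g
    change (ψ₂ (AlgEquiv.restrictNormalHom L g) * η g) ^ (2 ^ (k + 1)) = 1
    rw [mul_pow, pow_succ, pow_mul, hψ₂, one_pow, one_mul, mul_comm, pow_mul]
    rcases hη g with h | h <;> rw [h] <;> simp
  have hξC : ∀ (φ : N →+* ℂ) (c : N ≃ₐ[K] N), IsConj φ c → ξ c = 1 := by
    intro φ c hφ
    have hφL : IsConj (φ.comp (algebraMap L N)) (AlgEquiv.restrictNormalHom L c) := isConj_res hφ
    have hκ : (φ.comp (algebraMap L N)).comp (algebraMap K L) = φ.comp (algebraMap K N) := by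
      ext x
      change φ (algebraMap L N (algebraMap K L x)) = φ (algebraMap K N x)
      rw [← IsScalarTower.algebraMap_apply K L N]
    have h3 : ψ₂ (AlgEquiv.restrictNormalHom L c) = 1
        ∨ ψ₂ (AlgEquiv.restrictNormalHom L c) = -1 := by
      have h4 : ψ₂ (AlgEquiv.restrictNormalHom L c) * ψ₂ (AlgEquiv.restrictNormalHom L c) = 1 := by
        rw [← map_mul, isConj_sq hφL, map_one]
      have h5 : ((ψ₂ (AlgEquiv.restrictNormalHom L c) : ℂˣ) : ℂ)
          * ((ψ₂ (AlgEquiv.restrictNormalHom L c) : ℂˣ) : ℂ) = 1 := by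
        rw [← Units.val_mul, h4, Units.val_one]
      rcases mul_self_eq_one_iff.mp h5 with h6 | h6
      · left; exact Units.ext h6
      · right; exact Units.ext (by rw [h6]; simp)
    change ψ₂ (AlgEquiv.restrictNormalHom L c) * η c = 1
    rcases h3 with h3 | h3
    · have h8 : η c = 1 := by
        refine (hη c).resolve_right fun h9 => ?_
        obtain ⟨φ', c', hc', hκ', hψ'⟩ := (hY φ c hφ).mp h9
        have h10 := conj_same ψ₂ hφL hc' (by rw [hκ, hκ'])
        rw [h3, hψ'] at h10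
        exact neg_one_ne h10.symm
      rw [h3, h8, mul_one]
    · have h8 : η c = -1 := (hY φ c hφ).mpr ⟨_, _, hφL, hκ, h3⟩
      rw [h3, h8, neg_mul_neg, one_mul]
  obtain ⟨E, j1, j2, j3, j4, j5, j6, θ, hθ, hθξ⟩ := lin_red K N ξ
  have hfin : FiniteDimensional K E := Module.Finite.of_restrictScalars_finite ℚ K E
  have h3 : ξ = θ.comp (AlgEquiv.restrictNormalHom E) := by
    ext g
    rw [← hθξ]
    rfl
  change A.val K N (lc ξ) = 1
  rw [h3, val_lin_res]
  have hsur : Function.Surjective (AlgEquiv.restrictNormalHom (F := K) (K₁ := N) E) :=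
    AlgEquiv.restrictNormalHom_surjective N
  have hθp : ∀ g, θ g ^ (2 ^ (k + 1)) = 1 := by
    intro g
    obtain ⟨h, rfl⟩ := hsur g
    rw [hθξ]
    exact hξ h
  have hp : IsPGroup 2 (E ≃ₐ[K] E) := by
    intro g
    refine ⟨k + 1, hθ ?_⟩
    rw [map_pow, hθp, map_one]
  have : Fact (Nat.Prime 2) := ⟨Nat.prime_two⟩
  obtain ⟨l, hl⟩ := hp.exists_card_eq
  have hCE : ∀ (φ : E →+* ℂ) (c : E ≃ₐ[K] E), IsConj φ c → c = 1 := by
    intro φ c hφ
    let φ' : N →+* ℂ := ComplexEmbedding.lift N φ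
    have h4 : φ'.comp (algebraMap E N) = φ := ComplexEmbedding.lift_comp_algebraMap N φ
    have h5 : φ'.comp (algebraMap K N) = φ.comp (algebraMap K E) := by
      rw [← h4]
      ext x
      change φ' (algebraMap K N x) = φ' (algebraMap E N (algebraMap K E x))
      rw [← IsScalarTower.algebraMap_apply K E N]
    obtain ⟨c', hc'⟩ := exists_conj (K := K) (φ := φ') (by rw [h5]; exact hφ.isReal_comp)
    have h6 : IsConj (φ'.comp (algebraMap E N)) (AlgEquiv.restrictNormalHom E c') := isConj_res hc'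
    rw [h4] at h6
    have h7 := h6.ext hφ
    apply hθ
    rw [← h7, hθξ, map_one]
    exact hξC φ' c' hc'
  rcases Nat.lt_or_ge l 2 with hl2 | hl2
  · apply val_sign hR
    intro g
    have h8 : Nat.card (E ≃ₐ[K] E) ∣ 2 := by
      rw [hl]
      interval_cases l
      · simp
      · simp
    have h9 : θ g * θ g = 1 := by
      rw [← map_mul, ← pow_two]
      obtain ⟨b, hb⟩ := h8
      have h10 : g ^ 2 = 1 := by
        calc g ^ 2 = g ^ (Nat.card (E ≃ₐ[K] E) * b) := by rw [← hb]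
          _ = 1 := by rw [pow_mul, pow_card_eq_one', one_pow]
      rw [h10, map_one]
    have h5 : ((θ g : ℂˣ) : ℂ) * ((θ g : ℂˣ) : ℂ) = 1 := by
      rw [← Units.val_mul, h9, Units.val_one]
    rcases mul_self_eq_one_iff.mp h5 with h6 | h6
    · left; exact Units.ext h6
    · right; exact Units.ext (by rw [h6]; simp)
  · obtain ⟨l', rfl⟩ := Nat.exists_eq_add_of_le' hl2
    exact hM K E hK hK' ⟨l', hl⟩ hCE θ hθ

end

/-- the square of the value -/
theorem main_sq (hR : TrivOne A) (hC : TrivComplex A) (K L : Type) [Field K] [NumberField K]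
    [Field L] [NumberField L] [Algebra K L] [IsGalois K L] (χ : (L ≃ₐ[K] L) → ℂ) (hχ : IsChar χ) :
    A.val K L χ ^ 2 = 1 := by
  let P : Subgroup M := (powMonoidHom 2 : M →* M).ker
  have h : A.val K L χ ∈ P := brauer_red P (fun U ψ => val_lin_sq hR hC ψ) hχ
  exact h

/-- extensions of odd degree -/
theorem main_odd (hR : TrivOne A) (hC : TrivComplex A) (K L : Type) [Field K] [NumberField K]
    [Field L] [NumberField L] [Algebra K L] [IsGalois K L] (hodd : Odd (Module.finrank K L))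
    (χ : (L ≃ₐ[K] L) → ℂ) (hχ : IsChar χ) : A.val K L χ = 1 := by
  have hfin : FiniteDimensional K L := Module.Finite.of_restrictScalars_finite ℚ K L
  have h : A.val K L χ ∈ (⊥ : Subgroup M) := by
    refine brauer_red ⊥ (fun U ψ => ?_) hχ
    rw [Subgroup.mem_bot]
    apply val_lin_odd hR hC
    have h1 : Nat.card (L ≃ₐ[IntermediateField.fixedField U] L) = Nat.card U :=
      Nat.card_congr (IntermediateField.subgroupEquivAlgEquiv U).symm.toEquiv
    rw [h1]
    have h2 : Nat.card U ∣ Nat.card (L ≃ₐ[K] L) := Subgroup.card_subgroup_dvd_card U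
    rw [IsGalois.card_aut_eq_finrank] at h2
    exact Odd.of_dvd_nat hodd h2
  exact h

/-- all characters -/
theorem main_all (hR : TrivOne A) (hC : TrivComplex A) (hO : TrivOdd A) (hM : TrivMixed A)
    (K L : Type) [Field K] [NumberField K] [Field L] [NumberField L] [Algebra K L] [IsGalois K L]
    (χ : (L ≃ₐ[K] L) → ℂ) (hχ : IsChar χ) : A.val K L χ = 1 := by
  have h : A.val K L χ ∈ (⊥ : Subgroup M) := by
    refine brauer_red ⊥ (fun U ψ => ?_) hχ
    rw [Subgroup.mem_bot]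
    by_cases h1 : IsTotallyReal (IntermediateField.fixedField U)
    · exact val_lin_real hR hC hO h1 ψ
    · by_cases h2 : IsTotallyComplex (IntermediateField.fixedField U)
      · exact val_complex hC h2 ψ
      · exact val_lin_mixed hR hC hM h1 h2 ψ
  exact h

end Pool.Agent.K4H74.ST
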