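import Mathlib
import Pool.Agent.K4H74.ST.Main

/-!
# Induced characters and conjugate characters are characters
-/

set_option autoImplicit false
set_option linter.unusedSectionVars false

namespace Pool.Agent.K4H74.SC

open NumberField Pool.Agent.K4H74.ST Pool.Agent.R389 Pool.Agent.H541R3.ART Pool.Agent.W446.AS

section chars

variable {G : Type} [Group G] [Finite G]

lemma isChar_of_mem {f : G → ℂ} (h : f ∈ AddSubmonoid.closure (Irr G)) : IsChar f := by
  induction h using AddSubmonoid.closure_induction with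
  | mem χ hχ =>
    obtain ⟨n, ρ, -, rfl⟩ := hχ
    exact ⟨Fin n → ℂ, inferInstance, inferInstance, inferInstance, ρ, rfl⟩
  | zero => exact IsChar.zero
  | add a b _ _ ha hb => exact ha.add hb

lemma IsChar.mem {f : G → ℂ} (h : IsChar f) : f ∈ AddSubmonoid.closure (Irr G) := by
  obtain ⟨V, _, _, _, ρ, rfl⟩ := h
  exact char_memP _ ρ rfl

/-- conjugates of characters are characters -/
lemma isChar_sigma {f : G → ℂ} (h : IsChar f) (σ : ℂ →+* ℂ) : IsChar (fun g => σ (f g)) := by
  obtain ⟨V, _, _, _, ρ, rfl⟩ := h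
  exact isChar_of_mem (base_change σ ρ)

lemma pr_nat {f η : G → ℂ} (hf : f ∈ AddSubmonoid.closure (Irr G))
    (hη : η ∈ AddSubmonoid.closure (Irr G)) : ∃ n : ℕ, pr f η = n := by
  have h1 : ∀ χ ∈ Irr G, ∃ n : ℕ, pr f χ = n := by
    intro χ hχ
    induction hf using AddSubmonoid.closure_induction with
    | mem ψ hψ =>
      have hG : (Nat.card G : ℂ) ≠ 0 := by exact_mod_cast Nat.card_pos.ne'
      by_cases h : ψ = χ
      · refine ⟨1, ?_⟩
        have : Fintype G := Fintype.ofFinite G
        rw [h, pr_eq, pair_self hχ]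
        field_simp
        simp
      · refine ⟨0, ?_⟩
        have : Fintype G := Fintype.ofFinite G
        rw [pr_eq, pair_ne hψ hχ h]
        simp
    | zero => exact ⟨0, by rw [pr_zero_left]; simp⟩
    | add a b _ _ ha hb =>
      obtain ⟨k, hk⟩ := ha
      obtain ⟨l, hl⟩ := hb
      exact ⟨k + l, by rw [pr_add, hk, hl]; push_cast; rfl⟩
  induction hη using AddSubmonoid.closure_induction with
  | mem χ hχ => exact h1 χ hχ
  | zero => exact ⟨0, by rw [pr_comm, pr_zero_left]; simp⟩
  | add a b _ _ ha hb =>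
    obtain ⟨k, hk⟩ := ha
    obtain ⟨l, hl⟩ := hb
    exact ⟨k + l, by rw [pr_comm, pr_add, pr_comm a, pr_comm b, hk, hl]; push_cast; rfl⟩

/-- induced characters are characters -/
lemma isChar_ind (H : Subgroup G) {f : H → ℂ} (hf : IsChar f) : IsChar (ind H f) := by
  have h1 : ∀ χ ∈ Irr G, ∃ m : ℕ, pr (ind H f) χ = m := by
    intro χ hχ
    rw [frob H f (Irr.conj hχ)]
    refine pr_nat (IsChar.mem hf) ?_
    obtain ⟨n, ρ, -, rfl⟩ := hχ
    exact char_memP _ (ρ.comp H.subtype) rfl
  choose! m hm using h1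
  exact IsChar.of_decomp (IsDecomp.of_pr (ind_class _ _) hm)

end chars

end Pool.Agent.K4H74.SC
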