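import Mathlib
import Pool.Agent.K4H74.ST.Main

/-!
# Subgroups which contain given central involutions
-/

set_option autoImplicit false
set_option linter.unusedSectionVars false

namespace Pool.Agent.K4H74.ST

open Pool.Agent.R389

section

variable {G : Type} [Group G] [Finite G]

/-- adjoining a central involution -/
theorem central_step (U : Subgroup G) (ψ : U →* ℂˣ) {c : G} (hcc : c * c = 1)
    (hcz : ∀ g : G, g * c = c * g) (hcU : c ∉ U) :
    ∃ (V : Subgroup G) (ψ₁ ψ₂ : V →* ℂˣ), U ≤ V ∧ c ∈ V ∧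
      ind U (fun h => ((ψ h : ℂˣ) : ℂ)) = ind V (fun h => ((ψ₁ h : ℂˣ) : ℂ))
        + ind V (fun h => ((ψ₂ h : ℂˣ) : ℂ)) := by
  classical
  have hft : Fintype G := Fintype.ofFinite G
  have hcinv : c⁻¹ = c := inv_eq_of_mul_eq_one_left hcc
  have hxor : ∀ v : G, v ∈ U → v * c ∉ U := fun v hv h => hcU ((U.mul_mem_cancel_left hv).mp h)
  let V : Subgroup G :=
    { carrier := {v | v ∈ U ∨ v * c ∈ U}
      one_mem' := Or.inl U.one_mem
      mul_mem' := by
        intro a b ha hb
        rcases ha with ha | ha <;> rcases hb with hb | hb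
        · exact Or.inl (U.mul_mem ha hb)
        · right
          rw [mul_assoc]
          exact U.mul_mem ha hb
        · right
          have h := U.mul_mem ha hb
          rwa [mul_assoc, ← hcz b, ← mul_assoc] at h
        · left
          have h := U.mul_mem ha hb
          have h1 : a * c * (b * c) = a * b := by
            rw [hcz b, mul_assoc, ← mul_assoc c, hcc, one_mul]
          rwa [h1] at h
      inv_mem' := by
        intro a ha
        rcases ha with ha | ha
        · exact Or.inl (U.inv_mem ha)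
        · right
          have h := U.inv_mem ha
          rwa [mul_inv_rev, hcinv, ← hcz] at h }
  have hV : ∀ v : V, (v : G) ∉ U → (v : G) * c ∈ U := fun v hv => v.2.resolve_left hv
  let s : V →* ℂˣ := MonoidHom.mk' (fun v => if (v : G) ∈ U then 1 else -1) (by
    intro a b
    by_cases ha : (a : G) ∈ U <;> by_cases hb : (b : G) ∈ U
    · have h : ((a * b : V) : G) ∈ U := U.mul_mem ha hb
      rw [if_pos ha, if_pos hb, if_pos h, one_mul]
    · have h : ((a * b : V) : G) ∉ U := fun h => hb ((U.mul_mem_cancel_left ha).mp h)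
      rw [if_pos ha, if_neg hb, if_neg h, one_mul]
    · have h : ((a * b : V) : G) ∉ U := fun h => ha ((U.mul_mem_cancel_right hb).mp h)
      rw [if_neg ha, if_pos hb, if_neg h, mul_one]
    · have h : ((a * b : V) : G) ∈ U := by
        have h := U.mul_mem (hV a ha) (hV b hb)
        have h1 : (a : G) * c * ((b : G) * c) = a * b := by
          rw [hcz (b : G), mul_assoc, ← mul_assoc c, hcc, one_mul]
        rwa [h1] at h
      rw [if_neg ha, if_neg hb, if_pos h, neg_mul_neg, one_mul])
  have hs1 : ∀ v : V, (v : G) ∈ U → s v = 1 := fun v hv => if_pos hv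
  have hs2 : ∀ v : V, (v : G) ∉ U → s v = -1 := fun v hv => if_neg hv
  have hs : Sg s := by
    intro v
    by_cases hv : (v : G) ∈ U
    · left; exact hs1 v hv
    · right; exact hs2 v hv
  let t : V := ⟨c, Or.inr (by change c * c ∈ U; rw [hcc]; exact U.one_mem)⟩
  have ht : s t = -1 := hs2 t hcU
  let r : V → U := fun v => if h : (v : G) ∈ U then ⟨v, h⟩ else ⟨(v : G) * c, hV v h⟩
  have hr1 : ∀ (v : V) (h : (v : G) ∈ U), r v = ⟨v, h⟩ := fun v h => dif_pos h
  have hr2 : ∀ (v : V) (h : (v : G) ∉ U), r v = ⟨(v : G) * c, hV v h⟩ := fun v h => dif_neg h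
  let rh : V →* U := MonoidHom.mk' r (by
    intro a b
    apply Subtype.ext
    by_cases ha : (a : G) ∈ U <;> by_cases hb : (b : G) ∈ U
    · have h : ((a * b : V) : G) ∈ U := U.mul_mem ha hb
      rw [hr1 a ha, hr1 b hb, hr1 _ h]
      rfl
    · have h : ((a * b : V) : G) ∉ U := fun h => hb ((U.mul_mem_cancel_left ha).mp h)
      rw [hr1 a ha, hr2 b hb, hr2 _ h]
      exact mul_assoc _ _ _
    · have h : ((a * b : V) : G) ∉ U := fun h => ha ((U.mul_mem_cancel_right hb).mp h)
      rw [hr2 a ha, hr1 b hb, hr2 _ h]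
      change (a : G) * b * c = (a : G) * c * b
      rw [mul_assoc, hcz (b : G), mul_assoc]
    · have h1 : (a : G) * c * ((b : G) * c) = a * b := by
        rw [hcz (b : G), mul_assoc, ← mul_assoc c, hcc, one_mul]
      have h : ((a * b : V) : G) ∈ U := by
        have h := U.mul_mem (hV a ha) (hV b hb)
        rwa [h1] at h
      rw [hr2 a ha, hr2 b hb, hr1 _ h]
      exact h1.symm)
  let ψ₁ : V →* ℂˣ := ψ.comp rh
  refine ⟨V, ψ₁, ψ₁ * s, fun v hv => Or.inl hv, t.2, ?_⟩
  rw [← ind_add]
  have hUV : Nat.card s.ker = Nat.card U := by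
    refine Nat.card_congr
      { toFun := fun v => ⟨(v : V), by
          by_contra h
          have h1 := v.2
          rw [MonoidHom.mem_ker, hs2 _ h] at h1
          exact neg_one_ne h1⟩
        invFun := fun u => ⟨⟨u, Or.inl u.2⟩, hs1 _ u.2⟩
        left_inv := fun v => rfl
        right_inv := fun u => rfl }
  have hcard : Nat.card V = 2 * Nat.card U := by rw [card_ker hs ht, hUV]
  funext g
  rw [ind_eq, ind_eq, hcard]
  have h1 : ∀ y : G, ext V ((fun h => ((ψ₁ h : ℂˣ) : ℂ)) + (fun h => (((ψ₁ * s) h : ℂˣ) : ℂ))) y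
      = 2 * ext U (fun h => ((ψ h : ℂˣ) : ℂ)) y := by
    intro y
    by_cases hy : y ∈ U
    · have hyV : y ∈ V := Or.inl hy
      rw [ext_mem _ _ hy, ext_mem _ _ hyV, Pi.add_apply, MonoidHom.mul_apply,
        hs1 ⟨y, hyV⟩ hy, mul_one]
      have h2 : ψ₁ ⟨y, hyV⟩ = ψ ⟨y, hy⟩ := by
        change ψ (r ⟨y, hyV⟩) = _
        rw [hr1 ⟨y, hyV⟩ hy]
      rw [h2]
      ring
    · rw [ext_not _ _ hy, mul_zero]
      by_cases hyV : y ∈ V
      · rw [ext_mem _ _ hyV, Pi.add_apply, MonoidHom.mul_apply, hs2 ⟨y, hyV⟩ hy]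
        simp
      · rw [ext_not _ _ hyV]
  rw [Finset.sum_congr rfl (fun x _ => h1 _), ← Finset.mul_sum]
  push_cast
  rw [mul_inv]
  ring

theorem central_span (X : Set G) (hX : ∀ c ∈ X, c * c = 1) (hc : ∀ c ∈ X, ∀ g : G, g * c = c * g)
    (χ : G → ℂ) (hχ : IsChar χ) :
    χ ∈ AddSubgroup.closure {f | ∃ (U : Subgroup G) (ψ : U →* ℂˣ), (∀ c ∈ X, c ∈ U) ∧
      f = ind U (fun h => ((ψ h : ℂˣ) : ℂ))} := by
  have key : ∀ (n : ℕ) (U : Subgroup G) (ψ : U →* ℂˣ), Nat.card G - Nat.card U ≤ n →
      ind U (fun h => ((ψ h : ℂˣ) : ℂ)) ∈ AddSubgroup.closure {f | ∃ (U : Subgroup G)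
        (ψ : U →* ℂˣ), (∀ c ∈ X, c ∈ U) ∧ f = ind U (fun h => ((ψ h : ℂˣ) : ℂ))} := by
    intro n
    induction n with
    | zero =>
      intro U ψ hn
      have h1 : U = ⊤ := by
        apply Subgroup.eq_top_of_card_eq
        have := Nat.card_le_card_of_injective _ U.subtype_injective
        omega
      exact AddSubgroup.subset_closure ⟨U, ψ, fun c _ => by rw [h1]; trivial, rfl⟩
    | succ n ih =>
      intro U ψ hn
      by_cases h : ∀ c ∈ X, c ∈ U
      · exact AddSubgroup.subset_closure ⟨U, ψ, h, rfl⟩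
      · push Not at h
        obtain ⟨c, hcX, hcU⟩ := h
        obtain ⟨V, ψ₁, ψ₂, hUV, hcV, h1⟩ := central_step U ψ (hX c hcX) (hc c hcX) hcU
        have h2 : Nat.card U < Nat.card V := by
          refine lt_of_le_of_ne (Nat.card_le_card_of_injective _
            (Subgroup.inclusion_injective hUV)) fun h => hcU ?_
          have h3 : U = V := by
            apply SetLike.coe_injective
            have : (V : Set G).Finite := Set.toFinite _
            refine Set.eq_of_subset_of_ncard_le hUV ?_ this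
            rw [← Nat.card_coe_set_eq, ← Nat.card_coe_set_eq]
            exact h.ge
          rw [h3]
          exact hcV
        have h4 : Nat.card V ≤ Nat.card G := Nat.card_le_card_of_injective _ V.subtype_injective
        rw [h1]
        exact add_mem (ih V ψ₁ (by omega)) (ih V ψ₂ (by omega))
  have h1 : MonG G ≤ AddSubgroup.closure {f | ∃ (U : Subgroup G) (ψ : U →* ℂˣ),
      (∀ c ∈ X, c ∈ U) ∧ f = ind U (fun h => ((ψ h : ℂˣ) : ℂ))} := by
    rw [MonG, AddSubgroup.closure_le]
    rintro f ⟨U, ψ, -, rfl⟩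
    exact key _ U ψ le_rfl
  exact h1 (virt_mem_mon hχ.virt)

end

end Pool.Agent.K4H74.ST
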