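import Mathlib
import Pool.Agent.K4H74.ST.Fin
import Pool.Agent.K4H74.ST.Chr
import Pool.Agent.K4H74.ST.Cent
import Pool.Agent.K4H85.ST.Exact

/-!
# Cases without a sign ambiguity
-/

set_option autoImplicit false
set_option linter.unusedSectionVars false

namespace Pool.Agent.K4H74.ST

open NumberField NumberField.ComplexEmbedding Pool.Agent.R389

lemma IsChar.comp {G H : Type} [Group G] [Group H] {χ : G → ℂ} (h : IsChar χ) (ρ : H →* G) :
    IsChar (fun u => χ (ρ u)) := by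
  obtain ⟨V, _, _, _, τ, rfl⟩ := h
  exact ⟨V, inferInstance, inferInstance, inferInstance, τ.comp ρ, rfl⟩

/-- groups of exponent two -/
theorem two_span {U G : Type} [Group U] [Finite U] [Group G] [Finite G] (ρ : U →* G)
    (hρ : ∀ u, ρ u * ρ u = 1) {χ : G → ℂ} (hχ : IsChar χ) :
    (fun u => χ (ρ u)) ∈ AddSubgroup.closure {f : U → ℂ | ∃ s : U →* ℂˣ, Sg s ∧ f = lc s} := by
  classical
  have hE : ∀ e : ρ.range, e * e = 1 := by
    rintro ⟨_, u, rfl⟩
    exact Subtype.ext (hρ u)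
  have hcomm : ∀ a b : ρ.range, a * b = b * a := by
    intro a b
    have h1 : ∀ e : ρ.range, e⁻¹ = e := fun e => inv_eq_of_mul_eq_one_left (hE e)
    calc a * b = (a * b)⁻¹ := (h1 _).symm
      _ = b⁻¹ * a⁻¹ := mul_inv_rev a b
      _ = b * a := by rw [h1, h1]
  have h1 := central_span (G := ρ.range) Set.univ (fun e _ => hE e) (fun c _ g => hcomm g c)
    (fun e => χ e) (hχ.comp ρ.range.subtype)
  let Φ : (ρ.range → ℂ) →+ (U → ℂ) := AddMonoidHom.mk' (fun f u => f (ρ.rangeRestrict u))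
    (fun a b => rfl)
  have h2 : AddSubgroup.closure {f | ∃ (V : Subgroup ρ.range) (ψ : V →* ℂˣ),
      (∀ c ∈ (Set.univ : Set ρ.range), c ∈ V) ∧ f = ind V (fun h => ((ψ h : ℂˣ) : ℂ))}
      ≤ (AddSubgroup.closure {f : U → ℂ | ∃ s : U →* ℂˣ, Sg s ∧ f = lc s}).comap Φ := by
    rw [AddSubgroup.closure_le]
    rintro f ⟨V, ψ, hV, rfl⟩
    have hV' : V = ⊤ := by
      rw [eq_top_iff]
      exact fun x _ => hV x trivial
    subst hV'
    let ψ' : ρ.range →* ℂˣ := ψ.comp (Subgroup.topEquiv (G := ρ.range)).symm.toMonoidHom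
    have h3 : ind (⊤ : Subgroup ρ.range) (fun h => ((ψ h : ℂˣ) : ℂ)) = lc ψ' :=
      ind_top (lc ψ') (fun g x => lin_conj ψ' g x)
    rw [SetLike.mem_coe, AddSubgroup.mem_comap, h3]
    refine AddSubgroup.subset_closure ⟨ψ'.comp ρ.rangeRestrict, fun u => ?_, rfl⟩
    have h4 : ψ' (ρ.rangeRestrict u) * ψ' (ρ.rangeRestrict u) = 1 := by
      rw [← map_mul, hE, map_one]
    have h5 : ((ψ' (ρ.rangeRestrict u) : ℂˣ) : ℂ) * ((ψ' (ρ.rangeRestrict u) : ℂˣ) : ℂ) = 1 := by
      rw [← Units.val_mul, h4, Units.val_one]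
    rcases mul_self_eq_one_iff.mp h5 with h6 | h6
    · left; exact Units.ext h6
    · right; exact Units.ext (by rw [MonoidHom.comp_apply, h6]; simp)
  exact h2 h1

lemma fixed_real {K L : Type} [Field K] [NumberField K] [Field L] [NumberField L] [Algebra K L]
    [IsGalois K L] (hK : IsTotallyReal K) (H : Subgroup (L ≃ₐ[K] L)) (hH : ∀ c ∈ CC K L, c ∈ H) :
    IsTotallyReal (IntermediateField.fixedField H) := by
  refine ⟨fun v => ?_⟩
  rw [InfinitePlace.isReal_iff]
  let F := IntermediateField.fixedField H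
  let φ : L →+* ℂ := ComplexEmbedding.lift L v.embedding
  have h2 : φ.comp (algebraMap F L) = v.embedding := ComplexEmbedding.lift_comp_algebraMap L _
  obtain ⟨c, hc⟩ := exists_conj (K := K) (φ := φ) (by
    have h3 := hK.isReal (InfinitePlace.mk (φ.comp (algebraMap K L)))
    rw [InfinitePlace.isReal_mk_iff] at h3
    exact h3)
  rw [← h2, ComplexEmbedding.isReal_iff]
  ext x
  have h4 := hc.eq (x : L)
  have h5 : c (x : L) = (x : L) := x.2 ⟨c, hH c ⟨φ, hc⟩⟩
  rw [h5] at h4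
  exact h4.symm

section

variable {M : Type} [CommGroup M] {A : ArtinInvariant M}

/-- **The reduction to subgroups with values in `2`-groups.** -/
theorem red_two (hC : TrivComplex A) (K L : Type) [Field K] [NumberField K]
    [Field L] [NumberField L] [Algebra K L] [IsGalois K L] (χ : (L ≃ₐ[K] L) → ℂ) (hχ : IsChar χ)
    (h2 : ∀ (F N : Type) [Field F] [NumberField F] [Field N] [NumberField N] [Algebra F N]
      [IsGalois F N] (ρ : (N ≃ₐ[F] N) →* (L ≃ₐ[K] L)), (∀ u, ∃ k : ℕ, ρ u ^ (2 ^ k) = 1) →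
      A.val F N (fun u => χ (ρ u)) = 1) : A.val K L χ = 1 := by
  classical
  obtain ⟨N, i1, i2, i3, i4, i5, i6, ⟨j, hj⟩, hN⟩ := exists_comm K L
  have hfinN : FiniteDimensional K N := Module.Finite.of_restrictScalars_finite ℚ K N
  have hfinL : FiniteDimensional K L := Module.Finite.of_restrictScalars_finite ℚ K L
  let π : (N ≃ₐ[K] N) →* (L ≃ₐ[K] L) := AlgEquiv.restrictNormalHom L
  have hX : ∀ c ∈ CC K N, c * c = 1 ∧ c ≠ 1 := by
    rintro c ⟨φ, hφ⟩
    refine ⟨isConj_sq hφ, fun h => ?_⟩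
    have h1 : c j = - j := by
      refine sqrt_neg hφ ?_ ?_
      · rw [hj, map_neg, map_one]; simp
      · rw [hj, map_neg, map_one]; simp
    rw [h] at h1
    have h3 : j = 0 := self_eq_neg.mp h1
    rw [h3, mul_zero] at hj
    exact one_ne_zero (neg_eq_zero.mp hj.symm)
  have hcom : ∀ c ∈ CC K N, ∀ h : N ≃ₐ[K] N, h * c = c * h → π h * π h = 1 := by
    intro c hc h hh
    rcases hN c hc h hh with h1 | h1
    · change π h = 1 at h1
      rw [h1, one_mul]
    · change π h = π c at h1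
      rw [h1, ← map_mul, (hX c hc).1, map_one]
  have h1 := Pool.Agent.K4H85.ST.exact_group (CC K N) hX π hcom χ hχ
  have h3 : JJ (CC K N) ⊔ AddSubgroup.closure {f | ∃ (U : Subgroup (N ≃ₐ[K] N))
      (ρ : U →* (L ≃ₐ[K] L)), (∀ u, ∃ k : ℕ, ρ u ^ (2 ^ k) = 1) ∧
        f = ind U (fun u => χ (ρ u))} ≤ TT A (K := K) (L := N) ⊥ := by
    refine sup_le (JJ_le hC) ?_
    rw [AddSubgroup.closure_le]
    rintro f ⟨U, ρ, hρ, rfl⟩
    have hθ : IsChar (fun u => χ (ρ u)) := hχ.comp ρ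
    let F := IntermediateField.fixedField U
    let e : U ≃* (N ≃ₐ[F] N) := IntermediateField.subgroupEquivAlgEquiv U
    have h4 : ind U (fun u => χ (ρ u)) = indChar K F N (fun g => χ ((ρ.comp e.symm.toMonoidHom) g)) :=
      ind_fixed U _
    have hθ' : IsChar (fun g : N ≃ₐ[F] N => χ ((ρ.comp e.symm.toMonoidHom) g)) := hχ.comp _
    have h6 : IsChar (ind U (fun u => χ (ρ u))) := SC.isChar_ind U hθ
    rw [SetLike.mem_coe, mem_TT_char A h6, Subgroup.mem_bot, h4, A.val_ind K F N _ hθ']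
    exact h2 F N (ρ.comp e.symm.toMonoidHom) (fun u => hρ (e.symm u))
  have h4 := h3 h1
  have h5 : IsChar (fun h : N ≃ₐ[K] N => χ (π h)) := hχ.comp π
  rw [mem_TT_char A h5, Subgroup.mem_bot] at h4
  rw [← h4]
  exact (A.val_infl K L N χ hχ).symm

/-- groups without elements of order four -/
theorem main_four (hR : TrivOne A) (hC : TrivComplex A) (K L : Type) [Field K] [NumberField K]
    [Field L] [NumberField L] [Algebra K L] [IsGalois K L]
    (hG : ∀ g : L ≃ₐ[K] L, orderOf g ≠ 4) (χ : (L ≃ₐ[K] L) → ℂ) (hχ : IsChar χ) :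
    A.val K L χ = 1 := by
  have hfinL : FiniteDimensional K L := Module.Finite.of_restrictScalars_finite ℚ K L
  have h4 : ∀ (k : ℕ) (g : L ≃ₐ[K] L), g ^ (2 ^ k) = 1 → g * g = 1 := by
    intro k
    induction k with
    | zero =>
      intro g hg
      rw [pow_zero, pow_one] at hg
      rw [hg, one_mul]
    | succ k ih =>
      intro g hg
      have h1 : (g * g) * (g * g) = 1 := ih (g * g) (by
        rw [← pow_two, ← pow_mul, ← pow_succ']
        exact hg)
      by_contra h2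
      refine hG g ?_
      have h3 : orderOf g = 2 ^ (1 + 1) := by
        refine orderOf_eq_prime_pow ?_ ?_
        · rw [pow_one, pow_two]; exact h2
        · have : g ^ 2 ^ (1 + 1) = (g * g) * (g * g) := by
            rw [← pow_two, ← pow_two, ← pow_mul]
            norm_num
          rw [this, h1]
      rw [h3]
      norm_num
  refine red_two hC K L χ hχ fun F N _ _ _ _ _ _ ρ hρ => ?_
  have hfinN : FiniteDimensional F N := Module.Finite.of_restrictScalars_finite ℚ F N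
  have h5 := two_span ρ (fun u => by
    obtain ⟨k, hk⟩ := hρ u
    exact h4 k _ hk) hχ
  have h6 : AddSubgroup.closure {f : (N ≃ₐ[F] N) → ℂ | ∃ s : (N ≃ₐ[F] N) →* ℂˣ, Sg s ∧ f = lc s}
      ≤ TT A (K := F) (L := N) ⊥ := by
    rw [AddSubgroup.closure_le]
    rintro f ⟨s, hs, rfl⟩
    rw [SetLike.mem_coe, mem_TT_char A (IsChar.lc s), Subgroup.mem_bot]
    exact val_sign hR hs
  have h7 := h6 h5
  rwa [mem_TT_char A (hχ.comp ρ), Subgroup.mem_bot] at h7

/-- characters with rational values on the elements of `2`-power order -/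
theorem main_rat (hR : TrivRational A) (hC : TrivComplex A) (K L : Type) [Field K] [NumberField K]
    [Field L] [NumberField L] [Algebra K L] [IsGalois K L] (χ : (L ≃ₐ[K] L) → ℂ) (hχ : IsChar χ)
    (h : ∀ (g : L ≃ₐ[K] L) (k : ℕ), g ^ (2 ^ k) = 1 → ∃ q : ℚ, χ g = q) : A.val K L χ = 1 := by
  refine red_two hC K L χ hχ fun F N _ _ _ _ _ _ ρ hρ => ?_
  refine hR F N _ (hχ.comp ρ) fun u => ?_
  obtain ⟨k, hk⟩ := hρ u
  exact h _ k hk

/-- central complex conjugations -/
theorem main_central (hR : TrivOne A) (hC : TrivComplex A) (hO : TrivOdd A) (K L : Type) [Field K]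
    [NumberField K] [Field L] [NumberField L] [Algebra K L] [IsGalois K L]
    (hK : IsTotallyReal K) (hc : ∀ c ∈ CC K L, ∀ g : L ≃ₐ[K] L, g * c = c * g)
    (χ : (L ≃ₐ[K] L) → ℂ) (hχ : IsChar χ) : A.val K L χ = 1 := by
  have hfin : FiniteDimensional K L := Module.Finite.of_restrictScalars_finite ℚ K L
  have h1 := central_span (CC K L) (fun c hc => by
    obtain ⟨φ, hφ⟩ := hc
    exact isConj_sq hφ) hc χ hχ
  have h2 : AddSubgroup.closure {f | ∃ (U : Subgroup (L ≃ₐ[K] L)) (ψ : U →* ℂˣ),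
      (∀ c ∈ CC K L, c ∈ U) ∧ f = ind U (fun h => ((ψ h : ℂˣ) : ℂ))}
      ≤ TT A (K := K) (L := L) ⊥ := by
    rw [AddSubgroup.closure_le]
    rintro f ⟨H, ψ, hH, rfl⟩
    rw [SetLike.mem_coe, mem_TT_char A (IsChar.ind_lin H ψ), Subgroup.mem_bot]
    obtain ⟨ψ', hψ'⟩ := ind_fixed_lin H ψ
    rw [hψ', A.val_ind K (IntermediateField.fixedField H) L (lc ψ') (IsChar.lc ψ')]
    exact val_lin_real hR hC hO (fixed_real hK H hH) ψ'
  have h3 := h2 h1
  rwa [mem_TT_char A hχ, Subgroup.mem_bot] at h3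

end

end Pool.Agent.K4H74.ST
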